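import Pool.Agent.Lib.MP_04fdae_co.T.Defs

/-! An optimal family is closed under removing the last point. -/

namespace Pool.Agent.Lib.MP_04fdae_co.T

open Finset X

variable {m t : ℕ} {ω : ℕ → ℕ} {A : Finset (Finset ℕ)}

/-- The members that cannot lose the last point. -/
def pullG (m : ℕ) (A : Finset (Finset ℕ)) : Finset (Finset ℕ) :=
  A.filter fun S => m ∈ S ∧ S.erase m ∉ A

theorem mem_pullG {S : Finset ℕ} : S ∈ pullG m A ↔ S ∈ A ∧ m ∈ S ∧ S.erase m ∉ A := mem_filter

theorem pull_miss (h : Opt (m + 1) t ω A) {S T : Finset ℕ} (hS : S ∈ A) (hT : T ∈ A)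
    (mS : m ∈ S) (mT : m ∈ T) {i : ℕ} (hi : i < m) (iS : i ∉ S) (iT : i ∉ T) :
    t + 1 ≤ (S ∩ T).card := by
  have h1 := h.ti _ (h.sh S hS i m hi mS iS) T hT
  rw [insert_inter_of_notMem iT, erase_inter] at h1
  have := card_erase_add_one (mem_inter.2 ⟨mS, mT⟩)
  omega

theorem pull_size (h : Opt (m + 1) t ω A) {S T : Finset ℕ} (hS : S ∈ A) (hT : T ∈ A)
    (mS : m ∈ S) (mT : m ∈ T) (hne : S.card + T.card ≠ m + 1 + t) : t + 1 ≤ (S ∩ T).card := by
  by_contra hc
  have h1 := h.ti S hS T hT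
  have h2 : S ∪ T = range (m + 1) := by
    refine Subset.antisymm (union_subset (h.on S hS) (h.on T hT)) fun i hi => ?_
    rcases Nat.lt_succ_iff_lt_or_eq.1 (mem_range.1 hi) with hi | rfl
    · by_contra hn
      rw [mem_union, not_or] at hn
      exact hc (pull_miss h hS hT mS mT hi hn.1 hn.2)
    · exact mem_union_left _ mS
  have h3 := card_union_add_card_inter S T
  rw [h2, card_range] at h3
  omega

theorem pull_ex (h : Opt (m + 1) t ω A) {P Q : Finset (Finset ℕ)} (hP : P ⊆ pullG m A)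
    (hQ : Q ⊆ pullG m A)
    (hi : ∀ S ∈ P, ∀ T ∈ pullG m A, (T ∉ Q ∨ T ∈ P) → t + 1 ≤ (S ∩ T).card) :
    ∑ S ∈ P, ω (S.card - 1) ≤ wt ω Q := by
  have hQA : Q ⊆ A := hQ.trans (filter_subset _ _)
  have one : ∀ S ∈ P, ∀ T ∈ A \ Q, t ≤ (S.erase m ∩ T).card := by
    intro S hS T hT
    obtain ⟨hT, hTQ⟩ := mem_sdiff.1 hT
    have hSA := (mem_pullG.1 (hP hS)).1
    by_cases hG : T ∈ pullG m A
    · have h1 := hi S hS T hG (Or.inl hTQ)
      have h2 := pred_card_le_card_erase (s := S ∩ T) (a := m)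
      rw [erase_inter]
      omega
    · by_cases mT : m ∈ T
      · have h1 : T.erase m ∈ A := by
          by_contra hn
          exact hG (mem_pullG.2 ⟨hT, mT, hn⟩)
        have h2 := h.ti S hSA _ h1
        rwa [inter_erase, ← erase_inter] at h2
      · have h2 := h.ti S hSA T hT
        rwa [erase_inter, erase_eq_of_notMem fun hx => mT (mem_inter.1 hx).2]
  have hmx := h.mx ((A \ Q) ∪ P.image fun S => S.erase m) (fun S hS => by
    rcases mem_union.1 hS with hS | hS
    · exact h.on S (mem_sdiff.1 hS).1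
    · obtain ⟨S, hS', rfl⟩ := mem_image.1 hS
      exact (erase_subset _ _).trans (h.on S (mem_pullG.1 (hP hS')).1)) (fun S hS T hT => by
    rcases mem_union.1 hS with hS | hS <;> rcases mem_union.1 hT with hT | hT
    · exact h.ti S (mem_sdiff.1 hS).1 T (mem_sdiff.1 hT).1
    · obtain ⟨T, hT', rfl⟩ := mem_image.1 hT
      rw [inter_comm]
      exact one T hT' S hS
    · obtain ⟨S, hS', rfl⟩ := mem_image.1 hS
      exact one S hS' T hT
    · obtain ⟨S, hS', rfl⟩ := mem_image.1 hS
      obtain ⟨T, hT', rfl⟩ := mem_image.1 hT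
      have h1 := hi S hS' T (hP hT') (Or.inr hT')
      have h2 := pred_card_le_card_erase (s := S ∩ T) (a := m)
      rw [erase_inter, inter_erase, erase_idem]
      omega)
  unfold wt at hmx ⊢
  rw [sum_union (disjoint_left.2 fun S hS hS' => by
      obtain ⟨T, hT, rfl⟩ := mem_image.1 hS'
      exact (mem_pullG.1 (hP hT)).2.2 (mem_sdiff.1 hS).1),
    sum_image (fun S hS T hT e => by
      rw [← insert_erase (mem_pullG.1 (hP hS)).2.1, ← insert_erase (mem_pullG.1 (hP hT)).2.1]
      exact congrArg _ e), ← sum_sdiff hQA] at hmx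
  refine le_trans (le_of_eq (sum_congr rfl fun S hS => ?_)) (Nat.le_of_add_le_add_left hmx)
  rw [card_erase_of_mem (mem_pullG.1 (hP hS)).2.1]

theorem pull_const {P : Finset (Finset ℕ)} {c : ℕ} (hP : ∀ S ∈ P, S.card = c) (f : ℕ → ℕ) :
    ∑ S ∈ P, f S.card = P.card * f c := by
  rw [sum_congr rfl fun S hS => congrArg f (hP S hS), sum_const, smul_eq_mul]

theorem pull_ne (h : Opt (m + 1) t ω A) {a b : ℕ} (hab : a + b = m + 1 + t) (hne : a ≠ b) :
    ((pullG m A).filter fun S => S.card = a).card * ω (a - 1) ≤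
      ((pullG m A).filter fun S => S.card = b).card * ω b := by
  have h1 := pull_ex h (P := (pullG m A).filter fun S => S.card = a)
    (Q := (pullG m A).filter fun S => S.card = b) (filter_subset _ _) (filter_subset _ _)
    fun S hS T hT hq => by
      obtain ⟨hS, ha⟩ := mem_filter.1 hS
      refine pull_size h (mem_pullG.1 hS).1 (mem_pullG.1 hT).1 (mem_pullG.1 hS).2.1
        (mem_pullG.1 hT).2.1 fun e => ?_
      rcases hq with hq | hq
      · exact hq (mem_filter.2 ⟨hT, by omega⟩)
      · have := (mem_filter.1 hq).2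
        omega
  unfold wt at h1
  rwa [pull_const (fun S hS => (mem_filter.1 hS).2) (fun c => ω (c - 1)),
    pull_const (fun S hS => (mem_filter.1 hS).2) ω] at h1

theorem pull_eq (h : Opt (m + 1) t ω A) {a : ℕ} (hab : a + a = m + 1 + t) {i : ℕ} (hi : i < m) :
    (((pullG m A).filter fun S => S.card = a).filter fun S => i ∉ S).card * ω (a - 1) ≤
      (((pullG m A).filter fun S => S.card = a).filter fun S => i ∈ S).card * ω a := by
  have h1 := pull_ex h (P := ((pullG m A).filter fun S => S.card = a).filter fun S => i ∉ S)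
    (Q := ((pullG m A).filter fun S => S.card = a).filter fun S => i ∈ S)
    ((filter_subset _ _).trans (filter_subset _ _)) ((filter_subset _ _).trans (filter_subset _ _))
    fun S hS T hT hq => by
      obtain ⟨hS, iS⟩ := mem_filter.1 hS
      obtain ⟨hS, ha⟩ := mem_filter.1 hS
      by_cases hb : T.card = a
      · refine pull_miss h (mem_pullG.1 hS).1 (mem_pullG.1 hT).1 (mem_pullG.1 hS).2.1
          (mem_pullG.1 hT).2.1 hi iS fun iT => ?_
        rcases hq with hq | hq
        · exact hq (mem_filter.2 ⟨mem_filter.2 ⟨hT, hb⟩, iT⟩)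
        · exact (mem_filter.1 hq).2 iT
      · exact pull_size h (mem_pullG.1 hS).1 (mem_pullG.1 hT).1 (mem_pullG.1 hS).2.1
          (mem_pullG.1 hT).2.1 (by omega)
  unfold wt at h1
  rwa [pull_const (fun S hS => (mem_filter.1 (mem_filter.1 hS).1).2) (fun c => ω (c - 1)),
    pull_const (fun S hS => (mem_filter.1 (mem_filter.1 hS).1).2) ω] at h1

theorem pull_count (P : Finset (Finset ℕ)) (n c : ℕ) (p : ℕ → Finset ℕ → Prop)
    [∀ i S, Decidable (p i S)] (hc : ∀ S ∈ P, ((range n).filter fun i => p i S).card = c) :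
    ∑ i ∈ range n, (P.filter fun S => p i S).card = P.card * c := by
  simp only [card_filter] at hc ⊢
  rw [sum_comm, sum_congr rfl hc, sum_const, smul_eq_mul]

theorem pull (h : Opt (m + 1) t ω A) (ht : 1 ≤ t)
    (h1 : ∀ a b, 1 ≤ a → a < b → b ≤ m + 1 → ω a * ω b < ω (a - 1) * ω (b - 1))
    (h2 : ∀ s, m + 1 = t + 2 * s → (t + s - 1) * ω (t + s) < s * ω (t + s - 1)) :
    ∀ S ∈ A, S.erase m ∈ A := by
  intro S hS
  by_contra hn
  have mS : m ∈ S := by
    by_contra hm
    exact hn (by rwa [erase_eq_of_notMem hm])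
  have ha : t ≤ S.card := by simpa using h.ti S hS S hS
  have ha' : S.card ≤ m + 1 := by simpa using card_le_card (h.on S hS)
  have hg : 0 < ((pullG m A).filter fun T => T.card = S.card).card :=
    card_pos.2 ⟨S, mem_filter.2 ⟨mem_pullG.2 ⟨hS, mS, hn⟩, rfl⟩⟩
  generalize S.card = a at ha ha' hg
  obtain ⟨b, hb⟩ : ∃ b, a + b = m + 1 + t := ⟨m + 1 + t - a, by omega⟩
  by_cases hne : a = b
  · subst hne
    obtain ⟨s, rfl⟩ := Nat.exists_eq_add_of_le ha
    have k := sum_le_sum fun i (hi : i ∈ range m) => pull_eq h hb (mem_range.1 hi)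
    have e : ∀ T ∈ (pullG m A).filter fun T => T.card = t + s,
        ((range m).filter fun i => i ∈ T).card = t + s - 1 := by
      intro T hT
      obtain ⟨hT, hc⟩ := mem_filter.1 hT
      rw [← hc, ← card_erase_of_mem (mem_pullG.1 hT).2.1]
      congr 1
      ext i
      rw [mem_filter, mem_range, mem_erase]
      refine ⟨fun hi => ⟨hi.1.ne, hi.2⟩, fun hi => ⟨?_, hi.2⟩⟩
      have := mem_range.1 (h.on T (mem_pullG.1 hT).1 hi.2)
      omega
    rw [← sum_mul, ← sum_mul, pull_count _ m (t + s - 1) (fun i T => i ∈ T) e,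
      pull_count _ m s (fun i T => i ∉ T) fun T hT => by
        have h3 := e T hT
        have h4 := card_filter_add_card_filter_not (s := range m) fun i => i ∈ T
        rw [card_range] at h4
        omega, mul_assoc, mul_assoc] at k
    exact absurd (Nat.le_of_mul_le_mul_left k hg) (not_le.2 (h2 s (by omega)))
  · have k1 := pull_ne h hb hne
    have k2 := pull_ne h ((add_comm b a).trans hb) (Ne.symm hne)
    have k3 : ω a * ω b < ω (a - 1) * ω (b - 1) := by
      rcases lt_or_gt_of_ne hne with hl | hl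
      · exact h1 a b (by omega) hl (by omega)
      · rw [mul_comm, mul_comm (ω (a - 1))]
        exact h1 b a (by omega) hl ha'
    have k4 := Nat.mul_le_mul_right (ω (b - 1)) k1
    have k5 := Nat.mul_le_mul_right (ω b) k2
    have k6 := Nat.mul_lt_mul_of_pos_left k3 hg
    nlinarith

end Pool.Agent.Lib.MP_04fdae_co.T
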