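import Pool.Agent.Lib.MP_04fdae_co.T.Opt

/-! An optimal family with a free point is symmetric. -/

namespace Pool.Agent.Lib.MP_04fdae_co.T

open Finset X

variable {m t r : ℕ} {ω : ℕ → ℕ} {A : Finset (Finset ℕ)}

/-- invariance under exchanging points below `l` -/
def Sym (l : ℕ) (A : Finset (Finset ℕ)) : Prop :=
  ∀ S ∈ A, ∀ i j, i < l → j < l → i ∈ S → j ∉ S → insert j (S.erase i) ∈ A

/-- The members that do not allow an exchange with the point `l`. -/
def pushX (l : ℕ) (A : Finset (Finset ℕ)) : Finset (Finset ℕ) :=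
  A.filter fun S => l ∉ S ∧ ∃ i ∈ S, i < l ∧ insert l (S.erase i) ∉ A

variable {l : ℕ}

theorem mem_pushX {S : Finset ℕ} :
    S ∈ pushX l A ↔ S ∈ A ∧ l ∉ S ∧ ∃ i ∈ S, i < l ∧ insert l (S.erase i) ∉ A := mem_filter

theorem push_all (hs : Sym l A) {S : Finset ℕ} (hS : S ∈ pushX l A) {i : ℕ} (hi : i < l)
    (iS : i ∈ S) : insert l (S.erase i) ∉ A := by
  obtain ⟨-, -, k, kS, hk, hn⟩ := mem_pushX.1 hS
  intro hc
  by_cases e : k = i
  · exact hn (e ▸ hc)
  have h1 := hs _ hc k i hk hi (mem_insert_of_mem (mem_erase.2 ⟨e, kS⟩)) (by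
    simp only [mem_insert, mem_erase]; omega)
  refine hn (Eq.subst (motive := fun U => U ∈ A) ?_ h1)
  ext x
  simp only [mem_insert, mem_erase]
  grind

theorem push_big (h : Opt (m + 1) t ω A) {S T : Finset ℕ} (hS : S ∈ A) (hT : T ∈ A)
    (lS : l ∉ S) (lT : l ∉ T) {j : ℕ} (hj : l < j) (jS : j ∈ S) (jT : j ∈ T) :
    t + 1 ≤ (S ∩ T).card := by
  have h1 := h.ti _ (h.sh S hS l j hj jS lS) T hT
  rw [insert_inter_of_notMem lT, erase_inter] at h1
  have := card_erase_add_one (mem_inter.2 ⟨jS, jT⟩)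
  omega

theorem push_size (h : Opt (m + 1) t ω A) (hs : Sym l A) (ht : 1 ≤ t) {S T : Finset ℕ}
    (hS : S ∈ A) (hT : T ∈ A) (lS : l ∉ S) (lT : l ∉ T)
    (hne : (S ∩ range l).card + (T ∩ range l).card ≠ l + t) : t + 1 ≤ (S ∩ T).card := by
  by_contra hc
  have h1 := h.ti S hS T hT
  have h2 : ∀ j ∈ S ∩ T, j < l := fun j hj => by
    obtain ⟨jS, jT⟩ := mem_inter.1 hj
    rcases lt_trichotomy j l with e | rfl | e
    · exact e
    · exact absurd jS lS
    · exact absurd (push_big h hS hT lS lT e jS jT) hc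
  obtain ⟨j, hj⟩ := card_pos.1 (ht.trans h1)
  have h3 : S ∩ range l ∪ T ∩ range l = range l := by
    refine Subset.antisymm (union_subset inter_subset_right inter_subset_right) fun i hi => ?_
    by_contra hn
    simp only [mem_union, mem_inter, hi, and_true, not_or] at hn
    have h4 := h.ti _ (hs S hS j i (h2 j hj) (mem_range.1 hi) (mem_inter.1 hj).1 hn.1) T hT
    rw [insert_inter_of_notMem hn.2, erase_inter] at h4
    have := card_erase_add_one hj
    omega
  have h4 : S ∩ range l ∩ (T ∩ range l) = S ∩ T := by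
    ext x
    have := h2 x
    simp only [mem_inter, mem_range] at this ⊢
    tauto
  have h5 := card_union_add_card_inter (S ∩ range l) (T ∩ range l)
  rw [h3, h4, card_range] at h5
  omega

theorem push_out (h : Opt (m + 1) t ω A) {S T : Finset ℕ} (hS : S ∈ A) (lS : l ∉ S) (hT : T ∈ A)
    (hX : T ∉ pushX l A) {i : ℕ} (hi : i < l) : t ≤ (insert l (S.erase i) ∩ T).card := by
  have h1 := h.ti S hS T hT
  by_cases lT : l ∈ T
  · rw [insert_inter_of_mem lT, erase_inter,
      card_insert_of_notMem fun hx => lS (mem_inter.1 (mem_of_mem_erase hx)).1]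
    have := pred_card_le_card_erase (s := S ∩ T) (a := i)
    omega
  rw [insert_inter_of_notMem lT, erase_inter]
  by_cases iT : i ∈ T
  · have h2 : insert l (T.erase i) ∈ A := by
      by_contra hn
      exact hX (mem_pushX.2 ⟨hT, lT, i, iT, hi, hn⟩)
    have h3 := h.ti S hS _ h2
    rwa [inter_insert_of_notMem lS, inter_erase] at h3
  · rwa [erase_eq_of_notMem fun hx => iT (mem_inter.1 hx).2]

theorem push_count (P : Finset (Finset ℕ)) (n c : ℕ) (p : ℕ → Finset ℕ → Prop)
    [∀ i S, Decidable (p i S)] (hc : ∀ S ∈ P, ((range n).filter fun i => p i S).card = c) :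
    ∑ i ∈ range n, wt ω (P.filter fun S => p i S) = c * wt ω P := by
  unfold wt
  simp only [sum_filter]
  rw [sum_comm, mul_sum]
  refine sum_congr rfl fun S hS => ?_
  rw [← sum_filter, sum_const, hc S hS, smul_eq_mul]

theorem push_ex (h : Opt (m + 1) t ω A) (hs : Sym l A) (hl : l < m) {P Q : Finset (Finset ℕ)}
    (hP : P ⊆ pushX l A) (hQ : Q ⊆ pushX l A) {a c : ℕ} (hac : a + c = l + 1)
    (ha : ∀ S ∈ P, (S ∩ range l).card = a)
    (hi : ∀ S ∈ P, ∀ T ∈ pushX l A, (T ∉ Q ∨ T ∈ P) → t + 1 ≤ (S ∩ T).card) :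
    a * wt ω P ≤ c * wt ω Q := by
  have hQA : Q ⊆ A := hQ.trans (filter_subset _ _)
  obtain ⟨Y, hY⟩ : ∃ Y : Finset (Finset ℕ), ∀ U, U ∈ Y ↔
      ∃ S ∈ P, ∃ i ∈ S, i < l ∧ insert l (S.erase i) = U :=
    ⟨P.biUnion fun S => (S.filter (· < l)).image fun i => insert l (S.erase i), fun U => by
      simp only [mem_biUnion, mem_image, mem_filter, and_assoc]⟩
  have one : ∀ U ∈ Y, ∀ T ∈ A \ Q, t ≤ (U ∩ T).card := by
    intro U hU T hT
    obtain ⟨S, hS, i, -, hil, rfl⟩ := (hY U).1 hU
    obtain ⟨hT, hTQ⟩ := mem_sdiff.1 hT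
    by_cases hG : T ∈ pushX l A
    · have h1 := hi S hS T hG (Or.inl hTQ)
      have h2 := pred_card_le_card_erase (s := S ∩ T) (a := i)
      rw [insert_inter_of_notMem (mem_pushX.1 hG).2.1, erase_inter]
      omega
    · exact push_out h (mem_pushX.1 (hP hS)).1 (mem_pushX.1 (hP hS)).2.1 hT hG hil
  have hmx := h.mx ((A \ Q) ∪ Y) (fun U hU => by
    rcases mem_union.1 hU with hU | hU
    · exact h.on U (mem_sdiff.1 hU).1
    · obtain ⟨S, hS, i, -, -, rfl⟩ := (hY U).1 hU
      exact insert_subset (mem_range.2 (by omega))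
        ((erase_subset _ _).trans (h.on S (mem_pushX.1 (hP hS)).1))) (fun U hU V hV => by
    rcases mem_union.1 hU with hU | hU <;> rcases mem_union.1 hV with hV | hV
    · exact h.ti U (mem_sdiff.1 hU).1 V (mem_sdiff.1 hV).1
    · rw [inter_comm]
      exact one V hV U hU
    · exact one U hU V hV
    · obtain ⟨S, hS, i, -, -, rfl⟩ := (hY U).1 hU
      obtain ⟨T, hT, j, -, -, rfl⟩ := (hY V).1 hV
      have h1 := hi S hS T (hP hT) (Or.inr hT)
      have h2 := pred_card_le_card_erase (s := S ∩ T) (a := j)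
      have h3 := pred_card_le_card_erase (s := (S ∩ T).erase j) (a := i)
      rw [← insert_inter_distrib, erase_inter, inter_erase, card_insert_of_notMem fun hx =>
        (mem_pushX.1 (hP hS)).2.1 (mem_inter.1 (mem_of_mem_erase (mem_of_mem_erase hx))).1]
      omega)
  have hw : wt ω Y ≤ wt ω Q := by
    unfold wt at hmx ⊢
    rw [sum_union (disjoint_left.2 fun U hU hU' => by
      obtain ⟨S, hS, i, iS, hil, rfl⟩ := (hY U).1 hU'
      exact push_all hs (hP hS) hil iS (mem_sdiff.1 hU).1), ← sum_sdiff hQA] at hmx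
    exact Nat.le_of_add_le_add_left hmx
  refine le_trans ?_ (Nat.mul_le_mul_left c hw)
  rw [← push_count P l a (fun i S => i ∈ S) fun S hS => by
      rw [← ha S hS, filter_mem_eq_inter, inter_comm],
    ← push_count Y l c (fun i S => i ∉ S) fun U hU => by
      obtain ⟨S, hS, i, iS, hil, rfl⟩ := (hY U).1 hU
      have h1 := card_filter_add_card_filter_not (s := range l)
        fun k => k ∈ insert l (S.erase i)
      have h2 := card_erase_add_one (mem_inter.2 ⟨iS, mem_range.2 hil⟩)
      rw [card_range, filter_mem_eq_inter, inter_comm, insert_inter_of_notMem notMem_range_self,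
        erase_inter] at h1
      have := ha S hS
      omega]
  refine sum_le_sum fun i hil => ?_
  have hil := mem_range.1 hil
  unfold wt
  have e : ∑ S ∈ P.filter fun S => i ∈ S, ω S.card =
      ∑ U ∈ (P.filter fun S => i ∈ S).image fun S => insert l (S.erase i), ω U.card := by
    rw [sum_image]
    · refine sum_congr rfl fun S hS => ?_
      obtain ⟨hS, iS⟩ := mem_filter.1 hS
      rw [card_insert_of_notMem fun hx => (mem_pushX.1 (hP hS)).2.1 (mem_of_mem_erase hx),
        card_erase_add_one iS]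
    · intro S hS T hT e
      obtain ⟨hS, iS⟩ := mem_filter.1 hS
      obtain ⟨hT, iT⟩ := mem_filter.1 hT
      have e2 := congrArg (fun U => insert i (U.erase l)) e
      simp only at e2
      rwa [erase_insert fun hx => (mem_pushX.1 (hP hS)).2.1 (mem_of_mem_erase hx),
        erase_insert fun hx => (mem_pushX.1 (hP hT)).2.1 (mem_of_mem_erase hx),
        insert_erase iS, insert_erase iT] at e2
  rw [e]
  refine sum_le_sum_of_subset fun U hU => ?_
  obtain ⟨S, hS, rfl⟩ := mem_image.1 hU
  obtain ⟨hS, iS⟩ := mem_filter.1 hS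
  exact mem_filter.2 ⟨(hY _).2 ⟨S, hS, i, iS, hil, rfl⟩, by
    simp only [mem_insert, mem_erase]; omega⟩

theorem push_ne (h : Opt (m + 1) t ω A) (hs : Sym l A) (hl : l < m) (ht : 1 ≤ t) {a b c : ℕ}
    (hab : a + b = l + t) (hne : a ≠ b) (hac : a + c = l + 1) :
    a * wt ω ((pushX l A).filter fun S => (S ∩ range l).card = a) ≤
      c * wt ω ((pushX l A).filter fun S => (S ∩ range l).card = b) :=
  push_ex h hs hl (filter_subset _ _) (filter_subset _ _) hac (fun _ hS => (mem_filter.1 hS).2)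
    fun S hS T hT hq => by
      obtain ⟨hS, ha⟩ := mem_filter.1 hS
      refine push_size h hs ht (mem_pushX.1 hS).1 (mem_pushX.1 hT).1 (mem_pushX.1 hS).2.1
        (mem_pushX.1 hT).2.1 fun e => ?_
      rcases hq with hq | hq
      · exact hq (mem_filter.2 ⟨hT, by omega⟩)
      · have := (mem_filter.1 hq).2
        omega

theorem push_eq (h : Opt (m + 1) t ω A) (hs : Sym l A) (hl : l < m) (ht : 1 ≤ t) {a c : ℕ}
    (hab : a + a = l + t) (hac : a + c = l + 1) :
    a * wt ω (((pushX l A).filter fun S => (S ∩ range l).card = a).filter fun S => m ∈ S) ≤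
      c * wt ω (((pushX l A).filter fun S => (S ∩ range l).card = a).filter fun S => m ∉ S) :=
  push_ex h hs hl ((filter_subset _ _).trans (filter_subset _ _))
    ((filter_subset _ _).trans (filter_subset _ _)) hac
    (fun _ hS => (mem_filter.1 (mem_filter.1 hS).1).2) fun S hS T hT hq => by
      obtain ⟨hS, mS⟩ := mem_filter.1 hS
      obtain ⟨hS, ha⟩ := mem_filter.1 hS
      by_cases hb : (T ∩ range l).card = a
      · refine push_big h (mem_pushX.1 hS).1 (mem_pushX.1 hT).1 (mem_pushX.1 hS).2.1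
          (mem_pushX.1 hT).2.1 hl mS ?_
        rcases hq with hq | hq
        · by_contra mT
          exact hq (mem_filter.2 ⟨mem_filter.2 ⟨hT, hb⟩, mT⟩)
        · exact (mem_filter.1 hq).2
      · exact push_size h hs ht (mem_pushX.1 hS).1 (mem_pushX.1 hT).1 (mem_pushX.1 hS).2.1
          (mem_pushX.1 hT).2.1 (by omega)

theorem push_three (h : Opt (m + 1) t ω A) (hω : ∀ c, c ≤ m + 1 → 0 < ω c)
    (h3 : ∀ c, c ≤ m → ω c < 3 * ω (c + 1)) (hcl : ∀ S ∈ A, S.erase m ∈ A) (hl : l < m) (a : ℕ) :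
    wt ω (((pushX l A).filter fun S => (S ∩ range l).card = a).filter fun S => m ∉ S) +
      (((pushX l A).filter fun S => (S ∩ range l).card = a).filter fun S => m ∉ S).card ≤
      3 * wt ω (((pushX l A).filter fun S => (S ∩ range l).card = a).filter fun S => m ∈ S) := by
  unfold wt
  rw [card_eq_sum_ones, ← sum_add_distrib]
  refine le_trans (sum_le_sum (g := fun S => 3 * ω (insert m S).card) fun S hS => ?_) ?_
  · obtain ⟨hS, mS⟩ := mem_filter.1 hS
    have h1 := card_le_card (insert_subset (mem_range.2 (Nat.lt_succ_self m))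
      (h.on S (mem_pushX.1 (mem_filter.1 hS).1).1))
    rw [card_insert_of_notMem mS, card_range] at h1
    rw [card_insert_of_notMem mS]
    exact h3 _ (by omega)
  rw [← mul_sum, ← sum_image (f := fun U : Finset ℕ => ω U.card) (g := fun S => insert m S)
    fun S hS T hT e => by
      rw [← erase_insert (mem_filter.1 hS).2, ← erase_insert (mem_filter.1 hT).2]
      exact congrArg (fun U => U.erase m) e]
  refine Nat.mul_le_mul_left 3 (sum_le_sum_of_subset fun U hU => ?_)
  obtain ⟨S, hS, rfl⟩ := mem_image.1 hU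
  obtain ⟨hS, mS⟩ := mem_filter.1 hS
  obtain ⟨hS, ha⟩ := mem_filter.1 hS
  obtain ⟨hA, lS, i, iS, hi, hn⟩ := mem_pushX.1 hS
  refine mem_filter.2 ⟨mem_filter.2 ⟨mem_pushX.2 ⟨h.up hω hA (Nat.lt_succ_self m), ?_, i,
    mem_insert_of_mem iS, hi, fun hc => hn ?_⟩, ?_⟩, mem_insert_self _ _⟩
  · rw [mem_insert, not_or]
    exact ⟨hl.ne, lS⟩
  · refine Eq.subst (motive := fun U => U ∈ A) ?_ (hcl _ hc)
    ext x
    simp only [mem_insert, mem_erase]
    grind
  · rw [insert_inter_of_notMem (by rw [mem_range]; omega), ha]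

theorem sym_step (h : Opt (m + 1) t ω A) (hm : m = t + 2 * r) (hr : 2 * r + 1 ≤ t)
    (hω : ∀ c, c ≤ m + 1 → 0 < ω c) (h3 : ∀ c, c ≤ m → ω c < 3 * ω (c + 1))
    (hcl : ∀ S ∈ A, S.erase m ∈ A) {l : ℕ} (hl : l < m) (hs : Sym l A) : Sym (l + 1) A := by
  have key : ∀ S, S ∉ pushX l A := by
    intro S hS
    obtain ⟨hA, -, i, iS, hi, -⟩ := mem_pushX.1 hS
    have ht : 2 ≤ t := by omega
    have a0 : 0 < (S ∩ range l).card := card_pos.2 ⟨i, mem_inter.2 ⟨iS, mem_range.2 hi⟩⟩
    have hle : ∀ T : Finset ℕ, (T ∩ range l).card ≤ l := fun T => by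
      simpa using card_le_card (inter_subset_right (s₁ := T) (s₂ := range l))
    have a1 := hle S
    have w0 : 0 < wt ω ((pushX l A).filter fun T => (T ∩ range l).card = (S ∩ range l).card) :=
      lt_of_lt_of_le (hω S.card (by simpa using card_le_card (h.on S hA)))
        (single_le_sum (f := fun U : Finset ℕ => ω U.card) (fun _ _ => Nat.zero_le _)
          (mem_filter.2 ⟨hS, rfl⟩))
    generalize (S ∩ range l).card = a at a0 a1 w0
    obtain ⟨b, hb⟩ : ∃ b, a + b = l + t := ⟨l + t - a, by omega⟩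
    obtain ⟨c, hc⟩ : ∃ c, a + c = l + 1 := ⟨l + 1 - a, by omega⟩
    by_cases hne : a = b
    · subst hne
      have k1 := push_eq h hs hl (by omega) hb hc
      have k2 := push_three h hω h3 hcl hl a
      have k3 := sum_filter_add_sum_filter_not
        ((pushX l A).filter fun T => (T ∩ range l).card = a) (fun T => m ∈ T) fun U => ω U.card
      have k4 : 3 * c ≤ a := by omega
      have k5 := (Nat.mul_le_mul_right _ k4).trans k1
      rw [mul_comm 3 c, mul_assoc] at k5
      have k6 := Nat.le_of_mul_le_mul_left k5 (by omega)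
      have k7 : (((pushX l A).filter fun T => (T ∩ range l).card = a).filter
        fun T => m ∉ T) = ∅ := card_eq_zero.1 (by omega)
      unfold wt at k6 w0
      rw [k7, sum_empty] at k6 k3
      omega
    · have k1 := push_ne h hs hl (by omega) hb hne hc
      by_cases hbl : b ≤ l
      · obtain ⟨d, hd⟩ : ∃ d, b + d = l + 1 := ⟨l + 1 - b, by omega⟩
        have k2 := push_ne h hs hl (by omega) ((add_comm b a).trans hb) (Ne.symm hne) hd
        have k3 := (Nat.mul_le_mul_right _ (show d + 1 ≤ a by omega)).trans k1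
        have k4 := (Nat.mul_le_mul_right _ (show c + 1 ≤ b by omega)).trans k2
        rw [add_mul, one_mul] at k3 k4
        omega
      · have k2 : ((pushX l A).filter fun T => (T ∩ range l).card = b) = ∅ :=
          filter_eq_empty_iff.2 fun T _ e => hbl (e ▸ hle T)
        rw [k2] at k1
        have := Nat.mul_pos a0 w0
        simp only [wt, sum_empty, mul_zero] at k1 this
        omega
  intro S hS i j hi hj iS jS
  rcases Nat.lt_succ_iff_lt_or_eq.1 hj with hj | rfl
  · rcases Nat.lt_succ_iff_lt_or_eq.1 hi with hi | rfl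
    · exact hs S hS i j hi hj iS jS
    · exact h.sh S hS j i hj iS jS
  · by_contra hn
    refine key S (mem_pushX.2 ⟨hS, jS, i, iS, ?_, hn⟩)
    rcases Nat.lt_succ_iff_lt_or_eq.1 hi with hi | rfl
    · exact hi
    · exact absurd iS jS

end Pool.Agent.Lib.MP_04fdae_co.T
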