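import Pool.Agent.Lib.MP_04fdae_co.T.Num
import Pool.Agent.Lib.MP_04fdae_co.T.Pull
import Pool.Agent.Lib.MP_04fdae_co.T.Push

/-! The weighted intersection theorem. -/

namespace Pool.Agent.Lib.MP_04fdae_co.T

open Finset X

theorem ak_sub {m : ℕ} {A : Finset (Finset ℕ)} (hA : On (m + 1) A) {S : Finset ℕ} (hS : S ∈ A)
    (hm : m ∉ S) : S ⊆ range m := fun i hi => by
  have h1 := mem_range.1 (hA S hS hi)
  have h2 : i ≠ m := fun h => hm (h ▸ hi)
  exact mem_range.2 (by omega)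

theorem sym_card {m t r : ℕ} {A : Finset (Finset ℕ)} (hA : On (m + 1) A) (hti : TI t A)
    (ht : 1 ≤ t) (hm : m = t + 2 * r) (hcl : ∀ S ∈ A, S.erase m ∈ A) (hs : Sym m A) :
    ∀ S ∈ A, m ∉ S → t + r ≤ S.card := by
  intro S hS mS
  obtain ⟨T, hT, hmin⟩ := exists_min_image (A.filter fun T => m ∉ T ∧ T.card = S.card)
    (fun T => (S ∩ T).card) ⟨S, mem_filter.2 ⟨hS, mS, rfl⟩⟩
  obtain ⟨hT, mT, cT⟩ := mem_filter.1 hT
  have h1 := hti S hS T hT
  have h2 : range m ⊆ S ∪ T := fun j hj => by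
    by_contra hn
    rw [mem_union, not_or] at hn
    obtain ⟨i, hi⟩ : (S ∩ T).Nonempty := card_pos.1 (by omega)
    have hi' := mem_inter.1 hi
    have jm := mem_range.1 hj
    have h3 := hs T hT i j (mem_range.1 (ak_sub hA hT mT hi'.2)) jm hi'.2 hn.2
    have h4 : j ∉ T.erase i := fun h => hn.2 (mem_of_mem_erase h)
    have h5 := hmin _ (mem_filter.2 ⟨h3, fun h => ?_, ?_⟩)
    · rw [inter_insert_of_notMem hn.1, inter_erase] at h5
      have := card_erase_add_one hi
      omega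
    · rcases mem_insert.1 h with h | h
      · omega
      · exact mT (mem_of_mem_erase h)
    · rw [card_insert_of_notMem h4, card_erase_add_one hi'.2, cT]
  have h3 := card_le_card h2
  have h4 := card_union_add_card_inter S T
  rw [card_range] at h3
  omega

theorem ak_lev {d t r : ℕ} (ht : 1 ≤ t) (hd : 4 * t ≤ d + 3)
    (hd' : t = 2 * r + 2 → 9 * t ≤ 2 * (d + 3)) (h1 : 2 * r + 1 ≤ t)
    (h2 : t ≤ 2 * r + 2) (k : ℕ) (hk : t + 2 * r + k + 1 ≤ d) {B : Finset (Finset ℕ)}
    (hB : On (t + 2 * r + k + 1) B) (hti : TI t B) :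
    wt (om d (t + 2 * r + k + 1)) B ≤ wt (om d (t + 2 * r)) (upper (t + 2 * r) (t + r)) := by
  induction k generalizing B with
  | zero =>
    obtain ⟨A, hA⟩ := exists_opt (t + 2 * r + 1) t (om d (t + 2 * r + 1))
    have hcl := pull hA ht (fun a b ha hab hb => om_h1 ha hab hb) fun s hs => by omega
    have hs : ∀ l, l ≤ t + 2 * r → Sym l A := fun l => by
      induction l with
      | zero => exact fun _ S _ i j hi => absurd hi (Nat.not_lt_zero i)
      | succ l ih =>
        exact fun hl => sym_step hA rfl h1 (fun c _ => II_pos _ _)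
          (fun c hc => om_h3 (by omega)) hcl (by omega) (ih (by omega))
    have hc := sym_card hA.on hA.ti ht rfl hcl (hs _ le_rfl)
    refine (hA.mx B hB hti).trans ((wt_drop (ω' := om d (t + 2 * r)) hA.on hcl
      fun c hc => om_succ hk hc).trans ?_)
    refine sum_le_sum_of_subset fun S hS => ?_
    obtain ⟨a, b⟩ := mem_filter.1 hS
    exact mem_filter.2 ⟨mem_powerset.2 (ak_sub hA.on a b), hc S a b⟩
  | succ k ih =>
    obtain ⟨A, hA⟩ := exists_opt (t + 2 * r + (k + 1) + 1) t (om d (t + 2 * r + (k + 1) + 1))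
    have hcl := pull hA ht (fun a b ha hab hb => om_h1 ha hab hb) fun s hs => by
      rw [hs]
      exact om_h2 ht hd (fun h => hd' (by omega)) (by omega) (by omega)
    refine (hA.mx B hB hti).trans ((wt_drop (ω' := om d (t + 2 * r + k + 1)) hA.on hcl
      fun c hc => om_succ hk hc).trans ?_)
    exact ih (by omega) (fun S hS => ak_sub hA.on (mem_filter.1 hS).1 (mem_filter.1 hS).2)
      fun S hS T hT => hA.ti S (mem_filter.1 hS).1 T (mem_filter.1 hT).1

theorem wak {d t : ℕ} (ht : 1 ≤ t) (hd : 4 * t ≤ d + 3) (hd' : Even t → 9 * t ≤ 2 * (d + 3))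
    {A : Finset (Finset ℕ)} (hA : On d A) (hti : TI t A) :
    ∑ Z ∈ A, (MzF (d - Z.card) 0).card ≤
      wt (om d (t + 2 * ((t - 1) / 2))) (upper (t + 2 * ((t - 1) / 2)) (t + (t - 1) / 2)) := by
  have e : ∑ Z ∈ A, (MzF (d - Z.card) 0).card = wt (om d d) A := by
    unfold wt om
    rw [Nat.sub_self]
    rfl
  rw [e]
  by_cases hm : t + 2 * ((t - 1) / 2) + 1 ≤ d
  · obtain ⟨k, hk⟩ : ∃ k, t + 2 * ((t - 1) / 2) + k + 1 = d :=
      ⟨d - (t + 2 * ((t - 1) / 2) + 1), by omega⟩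
    have h := ak_lev (d := d) (r := (t - 1) / 2) ht hd (fun h => hd' ⟨(t - 1) / 2 + 1, by omega⟩)
      (by omega) (by omega) k hk.le (B := A) (hk ▸ hA) hti
    rwa [hk] at h
  · rw [show t + 2 * ((t - 1) / 2) = d by omega, show t + (t - 1) / 2 = t by omega]
    refine sum_le_sum_of_subset fun S hS => mem_filter.2 ⟨mem_powerset.2 (hA S hS), ?_⟩
    have := hti S hS S hS
    rwa [inter_self] at this

end Pool.Agent.Lib.MP_04fdae_co.T
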