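import Pool.Agent.Lib.MP_04fdae_co.T.Defs

/-! Cutting off an ear. -/

namespace Pool.Agent.Lib.MP_04fdae_co.T

open Finset X

/-- The chord of the larger polygon with the same ends. -/
def cutG (a : ℕ) (q : ℕ × ℕ) : ℕ × ℕ :=
  (if q.1 ≤ a then q.1 else q.1 + 1, if q.2 ≤ a then q.2 else q.2 + 1)

theorem cut_cr (a : ℕ) (p q : ℕ × ℕ) : Cr (cutG a p) (cutG a q) ↔ Cr p q := by
  unfold Cr cutG
  dsimp only
  split_ifs <;> omega

theorem cut_ear (a : ℕ) (q : ℕ × ℕ) : ¬ Cr (cutG a q) (a, a + 2) ∧ ¬ Cr (a, a + 2) (cutG a q) := by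
  unfold Cr cutG
  dsimp only
  split_ifs <;> omega

theorem cut_dg {n a : ℕ} (ha : a + 2 < n + 1) {q : ℕ × ℕ} (h : Dg n 0 q) :
    Dg (n + 1) 0 (cutG a q) ∧ q ≠ (a, a + 1) := by
  obtain ⟨x, y⟩ := q
  simp only [Dg, cutG, ne_eq, Prod.mk.injEq] at h ⊢
  split_ifs <;> omega

theorem cut_dg' {n a : ℕ} (ha : a + 2 < n + 1) {q : ℕ × ℕ} (h : Dg (n + 1) 0 (cutG a q))
    (h' : q ≠ (a, a + 1)) : Dg n 0 q := by
  obtain ⟨x, y⟩ := q
  have e : ∀ z : ℕ, (z ≤ a ∧ (if z ≤ a then z else z + 1) = z) ∨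
      (a < z ∧ (if z ≤ a then z else z + 1) = z + 1) := fun z => by split_ifs <;> omega
  have e1 := e x
  have e2 := e y
  simp only [Dg, cutG, ne_eq, Prod.mk.injEq] at h h' ⊢
  generalize (if x ≤ a then x else x + 1) = u at h e1
  generalize (if y ≤ a then y else y + 1) = v at h e2
  omega

theorem cut_inj (a : ℕ) : Function.Injective (cutG a) := by
  rintro ⟨x, y⟩ ⟨z, w⟩ h
  unfold cutG at h
  simp only [Prod.mk.injEq] at *
  split_ifs at h <;> omega

theorem cut_ear' (a : ℕ) : cutG a (a, a + 1) = (a, a + 2) := by simp [cutG]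

theorem cut_low {a : ℕ} {q : ℕ × ℕ} (h : q.1 ≤ a ∧ q.2 ≤ a) : cutG a q = q := by
  simp [cutG, h.1, h.2]

theorem cut_onto {n a : ℕ} {p : ℕ × ℕ} (h : Dg n 0 p) (h' : ¬ Cr p (a, a + 2)) :
    ∃ q, cutG a q = p := by
  obtain ⟨x, y⟩ := p
  refine ⟨(if x ≤ a then x else x - 1, if y ≤ a then y else y - 1), ?_⟩
  unfold Dg Cr cutG at *
  simp only [Prod.mk.injEq] at *
  split_ifs <;> omega

open Classical in
/-- Triangulations through the ear at the vertex `a + 1` correspond to triangulations of the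
polygon without that vertex; chords with both ends at most `a` are kept. -/
theorem card_cut {n a : ℕ} (ha : a + 2 < n + 1) (hn : 3 ≤ n) (Q : Finset (ℕ × ℕ))
    (hQ : ∀ q ∈ Q, q.1 ≤ a ∧ q.2 ≤ a) :
    ((allT (n + 1)).filter fun S => (a, a + 2) ∈ S ∧ Q ⊆ S).card =
      ((allT n).filter fun S => Q ⊆ S).card := by
  have hear : Dg (n + 1) 0 (a, a + 2) := by
    unfold Dg
    dsimp only
    omega
  symm
  refine card_bij (fun T _ => insert (a, a + 2) (T.image (cutG a))) (fun T hT => ?_)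
    (fun T hT T' hT' e => ?_) fun S hS => ?_
  · rw [mem_filter, mem_allT] at hT ⊢
    refine ⟨⟨fun p hp => ?_, fun p hp q hq => ?_, fun p hp h => ?_⟩, mem_insert_self _ _,
      fun q hq => mem_insert_of_mem (mem_image.2 ⟨q, hT.2 hq, cut_low (hQ q hq)⟩)⟩
    · rcases mem_insert.1 hp with rfl | hp
      · exact hear
      · obtain ⟨q, hq, rfl⟩ := mem_image.1 hp
        exact (cut_dg ha (hT.1.dg q hq)).1
    · rcases mem_insert.1 hp with rfl | hp
      · rcases mem_insert.1 hq with rfl | hq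
        · exact cut_ear' a ▸ (cut_ear a (a, a + 1)).1
        · obtain ⟨q, -, rfl⟩ := mem_image.1 hq
          exact (cut_ear a q).2
      · obtain ⟨p, hp', rfl⟩ := mem_image.1 hp
        rcases mem_insert.1 hq with rfl | hq
        · exact (cut_ear a p).1
        · obtain ⟨q, hq', rfl⟩ := mem_image.1 hq
          exact fun h => hT.1.nc p hp' q hq' ((cut_cr a p q).1 h)
    · obtain ⟨q, rfl⟩ := cut_onto hp (h _ (mem_insert_self _ _))
      by_cases hq : q = (a, a + 1)
      · rw [hq, cut_ear']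
        exact mem_insert_self _ _
      · exact mem_insert_of_mem (mem_image_of_mem _ (hT.1.mx q (cut_dg' ha hp hq) fun r hr hc =>
          h _ (mem_insert_of_mem (mem_image_of_mem _ hr)) ((cut_cr a q r).2 hc)))
  · have key : ∀ T T' : Finset (ℕ × ℕ), Tri n 0 T → insert (a, a + 2) (T.image (cutG a)) =
        insert (a, a + 2) (T'.image (cutG a)) → T ⊆ T' := fun T T' hT e q hq => by
      have h : cutG a q ∈ insert (a, a + 2) (T'.image (cutG a)) :=
        e ▸ mem_insert_of_mem (mem_image_of_mem _ hq)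
      rcases mem_insert.1 h with h | h
      · exact absurd (cut_inj a (h.trans (cut_ear' a).symm)) (cut_dg ha (hT.dg q hq)).2
      · obtain ⟨r, hr, e'⟩ := mem_image.1 h
        exact cut_inj a e' ▸ hr
    rw [mem_filter, mem_allT] at hT hT'
    exact Subset.antisymm (key T T' hT.1 e) (key T' T hT'.1 e.symm)
  · rw [mem_filter, mem_allT] at hS
    obtain ⟨hS, he, hQS⟩ := hS
    have hm : ∀ q, q ∈ (range n ×ˢ range n).filter (fun q => cutG a q ∈ S ∧ q ≠ (a, a + 1)) ↔
        cutG a q ∈ S ∧ q ≠ (a, a + 1) := fun q => by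
      rw [mem_filter]
      refine ⟨fun h => h.2, fun h => ⟨?_, h⟩⟩
      have := cut_dg' ha (hS.dg _ h.1) h.2
      unfold Dg at this
      rw [mem_product, mem_range, mem_range]
      omega
    refine ⟨(range n ×ˢ range n).filter (fun q => cutG a q ∈ S ∧ q ≠ (a, a + 1)), ?_, ?_⟩
    · rw [mem_filter, mem_allT]
      refine ⟨⟨fun p hp => ?_, fun p hp q hq hc => ?_, fun p hp h => ?_⟩, fun q hq => ?_⟩
      · exact cut_dg' ha (hS.dg _ ((hm p).1 hp).1) ((hm p).1 hp).2
      · exact hS.nc _ ((hm p).1 hp).1 _ ((hm q).1 hq).1 ((cut_cr a p q).2 hc)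
      · refine (hm p).2 ⟨hS.mx _ (cut_dg ha hp).1 fun s hs hc => ?_, (cut_dg ha hp).2⟩
        obtain ⟨q, rfl⟩ := cut_onto (hS.dg s hs) (hS.nc s hs _ he)
        by_cases hq : q = (a, a + 1)
        · rw [hq, cut_ear'] at hc
          exact (cut_ear a p).1 hc
        · exact h q ((hm q).2 ⟨hs, hq⟩) ((cut_cr a p q).1 hc)
      · refine (hm q).2 ⟨(cut_low (hQ q hq)).symm ▸ hQS hq, fun e => ?_⟩
        have := (hQ q hq).2
        rw [e] at this
        simp at this
    · ext s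
      rw [mem_insert, mem_image]
      constructor
      · rintro (rfl | ⟨q, hq, rfl⟩)
        · exact he
        · exact ((hm q).1 hq).1
      · intro hs
        obtain ⟨q, rfl⟩ := cut_onto (hS.dg s hs) (hS.nc s hs _ he)
        by_cases hq : q = (a, a + 1)
        · exact Or.inl (hq ▸ cut_ear' a)
        · exact Or.inr ⟨q, (hm q).2 ⟨hs, hq⟩, rfl⟩

end Pool.Agent.Lib.MP_04fdae_co.T
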