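import Pool.Agent.Lib.MP_04fdae_co.X.Main
import Pool.Agent.Lib.MP_04fdae_co.X.Low

/-! Families of triangulations with many common diagonals: definitions. -/

namespace Pool.Agent.Lib.MP_04fdae_co.T

open Finset X

/-- Any two members share at least `t` elements. -/
def TI (t : ℕ) (A : Finset (Finset ℕ)) : Prop := ∀ S ∈ A, ∀ T ∈ A, t ≤ (S ∩ T).card

/-- All members are subsets of `range m`. -/
def On (m : ℕ) (A : Finset (Finset ℕ)) : Prop := ∀ S ∈ A, S ⊆ range m

/-- The weight of a family, the weight of a set being a function of its size. -/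
def wt (ω : ℕ → ℕ) (A : Finset (Finset ℕ)) : ℕ := ∑ S ∈ A, ω S.card

/-- A shifted family of largest weight. -/
structure Opt (m t : ℕ) (ω : ℕ → ℕ) (A : Finset (Finset ℕ)) : Prop where
  on : On m A
  ti : TI t A
  mx : ∀ B, On m B → TI t B → wt ω B ≤ wt ω A
  sh : ∀ S ∈ A, ∀ i j, i < j → j ∈ S → i ∉ S → insert i (S.erase j) ∈ A

/-- Binomial transforms of the shifted Motzkin numbers. -/
def II : ℕ → ℕ → ℕ
  | a, 0 => (MzF a 0).card
  | a, b + 1 => II a b + II (a + 1) b

/-- The weight of a trace of size `c` on `range m`. -/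
def om (d m c : ℕ) : ℕ := II (m - c) (d - m)

/-- The subsets of `range m` with at least `k` elements. -/
def upper (m k : ℕ) : Finset (Finset ℕ) := (range m).powerset.filter fun S => k ≤ S.card

open Classical in
/-- All triangulations of the polygon with `n` vertices. -/
noncomputable def allT (n : ℕ) : Finset (Finset (ℕ × ℕ)) :=
  (range n ×ˢ range n).powerset.filter (Tri n 0)

/-- The ears used in the extremal family. -/
def ear (i : ℕ) : ℕ × ℕ := (2 * i, 2 * i + 2)

open Classical in
theorem mem_allT {n : ℕ} {S : Finset (ℕ × ℕ)} : S ∈ allT n ↔ Tri n 0 S := by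
  unfold allT
  rw [mem_filter, mem_powerset]
  refine ⟨fun h => h.2, fun h => ⟨fun p hp => ?_, h⟩⟩
  have := h.dg p hp
  unfold Dg at this
  rw [mem_product, mem_range, mem_range]
  omega

end Pool.Agent.Lib.MP_04fdae_co.T
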