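import Pool.Agent.Lib.MP_04fdae_co.T.Num
import Pool.Agent.Lib.MP_04fdae_co.T.Cut

/-! Counting triangulations by their ears. -/

namespace Pool.Agent.Lib.MP_04fdae_co.T

open Finset X

theorem Ears_mem {α : Type*} {p : α → Prop} {i : DecidablePred p} {s : Finset α} {a : α} :
    a ∈ @filter α p i s ↔ a ∈ s ∧ p a := mem_filter

theorem Ears_congr {α : Type*} {p q : α → Prop} {i : DecidablePred p} {j : DecidablePred q}
    {s : Finset α} (h : ∀ a ∈ s, p a ↔ q a) : (@filter α p i s).card = (@filter α q j s).card := by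
  have : @filter α p i s = @filter α q j s := by
    ext a
    rw [Ears_mem, Ears_mem]
    exact and_congr_right (h a)
  rw [this]

theorem card_allT {n : ℕ} (hn : 3 ≤ n) : (allT n).card = catalan (n - 2) := by
  classical
  have h := card_cut (n := n) (a := 0) (by omega) hn ∅ (by simp)
  simp only [empty_subset, and_true, zero_add, filter_true] at h
  rw [← h]
  have e : n - 2 = n + 1 - 3 := by omega
  rw [e]
  apply le_antisymm
  · refine (main_nat (n := n + 1) (by omega) _ (fun S hS => ?_) (fun S hS S' hS' => ?_)).1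
    · exact mem_allT.1 (mem_filter.1 hS).1
    · exact ⟨(0, 2), (mem_filter.1 hS).2, (mem_filter.1 hS').2⟩
  · obtain ⟨F, hF, hc⟩ := low_star (n := n + 1) (by omega)
    refine hc.trans (card_le_card fun S hS => ?_)
    exact mem_filter.2 ⟨mem_allT.2 (hF S hS).1, (hF S hS).2⟩

open Classical in
theorem card_sup {n : ℕ} (hn : 3 ≤ n) (J : Finset ℕ) (hJ : ∀ i ∈ J, 2 * i + 3 < n) :
    ((allT n).filter fun S => ∀ i ∈ J, ear i ∈ S).card = catalan (n - 2 - J.card) := by
  induction J using Finset.induction_on_max generalizing n with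
  | empty =>
    simp only [notMem_empty, IsEmpty.forall_iff, implies_true, filter_true, card_empty,
      Nat.sub_zero]
    exact card_allT hn
  | insert k J hk ih =>
    have hk3 := hJ k (mem_insert_self k J)
    obtain ⟨n', rfl⟩ : ∃ n', n = n' + 1 := ⟨n - 1, by omega⟩
    have hkJ : k ∉ J := fun h => lt_irrefl _ (hk k h)
    have hcut := card_cut (n := n') (a := 2 * k) (by omega) (by omega) (J.image ear) (by
      intro q hq
      obtain ⟨i, hi, rfl⟩ := mem_image.1 hq
      have := hk i hi
      simp only [ear]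
      omega)
    have ih' := ih (n := n') (by omega) (fun i hi => by have := hk i hi; omega)
    have e3 : n' + 1 - 2 - (J.card + 1) = n' - 2 - J.card := by omega
    rw [card_insert_of_notMem hkJ, e3, ← ih']
    refine (Ears_congr fun S _ => ?_).trans (hcut.trans (Ears_congr fun S _ => ?_))
    · rw [forall_mem_insert, image_subset_iff]
      exact Iff.rfl
    · rw [image_subset_iff]

open Classical in
theorem card_trace {n : ℕ} (K J : Finset ℕ) (hJK : Disjoint J K)
    (h : ∀ i ∈ J ∪ K, 2 * i + 3 < n) (hc : J.card + K.card + 3 ≤ n) :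
    ((allT n).filter fun S => (∀ i ∈ J, ear i ∈ S) ∧ ∀ i ∈ K, ear i ∉ S).card =
      II K.card (n - 3 - J.card - K.card) := by
  induction K using Finset.induction_on generalizing J with
  | empty =>
    rw [card_empty] at hc ⊢
    have e : n - 3 - J.card - 0 + 1 = n - 2 - J.card := by omega
    rw [II_zero, e, ← card_sup (by omega) J (fun i hi => h i (mem_union_left _ hi))]
    exact Ears_congr fun S _ => by simp
  | insert k K hk ih =>
    have hkJ : k ∉ J := fun hJ => disjoint_left.1 hJK hJ (mem_insert_self k K)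
    have hJK' : Disjoint J K := hJK.mono_right (subset_insert k K)
    rw [card_insert_of_notMem hk] at hc ⊢
    have h1 := ih J hJK' (fun i hi => h i (by
      rcases mem_union.1 hi with hi | hi
      · exact mem_union_left _ hi
      · exact mem_union_right _ (mem_insert_of_mem hi))) (by omega)
    have h2 := ih (insert k J) (disjoint_insert_left.2 ⟨hk, hJK'⟩) (fun i hi => h i (by
      rcases mem_union.1 hi with hi | hi
      · rcases mem_insert.1 hi with rfl | hi
        · exact mem_union_right _ (mem_insert_self _ _)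
        · exact mem_union_left _ hi
      · exact mem_union_right _ (mem_insert_of_mem hi)))
      (by rw [card_insert_of_notMem hkJ]; omega)
    rw [card_insert_of_notMem hkJ] at h2
    have h3 := card_filter_add_card_filter_not
      (s := (allT n).filter fun S => (∀ i ∈ J, ear i ∈ S) ∧ ∀ i ∈ K, ear i ∉ S)
      (fun S => ear k ∈ S)
    have e1 : (((allT n).filter fun S => (∀ i ∈ J, ear i ∈ S) ∧ ∀ i ∈ K, ear i ∉ S).filter
        fun S => ear k ∈ S) =
        (allT n).filter fun S => (∀ i ∈ insert k J, ear i ∈ S) ∧ ∀ i ∈ K, ear i ∉ S := by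
      ext S
      rw [Ears_mem, Ears_mem, Ears_mem, forall_mem_insert]
      tauto
    have e2 : (((allT n).filter fun S => (∀ i ∈ J, ear i ∈ S) ∧ ∀ i ∈ K, ear i ∉ S).filter
        fun S => ¬ ear k ∈ S) =
        (allT n).filter fun S => (∀ i ∈ J, ear i ∈ S) ∧ ∀ i ∈ insert k K, ear i ∉ S := by
      ext S
      rw [Ears_mem, Ears_mem, Ears_mem, forall_mem_insert]
      tauto
    rw [e1, e2, h1, h2] at h3
    have e3 : n - 3 - J.card - K.card = n - 3 - J.card - (K.card + 1) + 1 := by omega
    have e4 : n - 3 - (J.card + 1) - K.card = n - 3 - J.card - (K.card + 1) := by omega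
    rw [e3, e4, II] at h3
    exact Nat.add_left_cancel h3

open Classical in
theorem card_ears {n m : ℕ} (hm : 2 * m + 2 ≤ n) (hn : m + 3 ≤ n) (k : ℕ) :
    wt (om (n - 3) m) (upper m k) ≤
      ((allT n).filter fun S => k ≤ ((range m).filter fun i => ear i ∈ S).card).card := by
  have hmap : ∀ S ∈ (allT n).filter fun S => k ≤ ((range m).filter fun i => ear i ∈ S).card,
      ((range m).filter fun i => ear i ∈ S) ∈ upper m k := by
    intro S hS
    exact mem_filter.2 ⟨mem_powerset.2 (filter_subset _ _), (mem_filter.1 hS).2⟩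
  rw [card_eq_sum_card_fiberwise (f := fun S => (range m).filter fun i => ear i ∈ S)
    (t := upper m k) hmap]
  unfold wt
  refine sum_le_sum fun J hJ => ?_
  obtain ⟨hJm, hJk⟩ := mem_filter.1 hJ
  rw [mem_powerset] at hJm
  have hcard : J.card ≤ m := by simpa using card_le_card hJm
  have hK : (range m \ J).card = m - J.card := by
    rw [card_sdiff_of_subset hJm, card_range]
  have ht := card_trace (n := n) (range m \ J) J disjoint_sdiff (fun i hi => by
    rw [union_sdiff_of_subset hJm, mem_range] at hi
    omega) (by rw [hK]; omega)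
  have e : n - 3 - J.card - (m - J.card) = n - 3 - m := by omega
  rw [hK, e] at ht
  unfold om
  rw [← ht]
  refine card_le_card fun S hS => ?_
  obtain ⟨hS1, hS2, hS3⟩ := Ears_mem.1 hS
  have hf : ((range m).filter fun i => ear i ∈ S) = J := by
    ext i
    rw [mem_filter]
    refine ⟨fun hi => ?_, fun hi => ⟨hJm hi, hS2 i hi⟩⟩
    by_contra hiJ
    exact hS3 i (mem_sdiff.2 ⟨hi.1, hiJ⟩) hi.2
  refine mem_filter.2 ⟨mem_filter.2 ⟨hS1, ?_⟩, hf⟩
  rw [hf]
  exact hJk

end Pool.Agent.Lib.MP_04fdae_co.T
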