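import Pool.Agent.Lib.MP_04fdae_co.T.Meet

/-! The labelling map is injective. -/

namespace Pool.Agent.Lib.MP_04fdae_co.T

open Finset X

variable {n l t : ℕ} {E : Finset EOb}

theorem bad_partner (hE : FamE n l t E) {e : EOb}
    (h1 : Lower E e) (h2 : Upper E e) (h3 : Bad l t E e) : ∃ s ∈ E, ∃ D : Finset Tok,
      D.card < t ∧ s.u = e.u ∧ (0, e.u) ∈ s.R ∧
      (¬ ∃ i ∈ e.Z, i ∈ s.Z ∧ Sum.inl i ∉ D) ∧
      (∀ p ∈ e.R, p ∈ s.R → Sum.inr p ∉ D → p.1 = 0) ∧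
      (∀ x, (0, x) ∈ e.R → (0, x) ∈ s.R → Sum.inr (0, x) ∉ D → x = e.u ∨ x ∈ e.H ∨ x ∈ s.H) ∧
      ∀ x ∈ s.H, e.u < x := by
  obtain ⟨s, hs, -, -, s1, s2⟩ := h3
  obtain ⟨D, hD, s2⟩ : ∃ D : Finset Tok, D.card < t ∧ ¬ MeetD D (obU e) (obR l s) := by
    by_contra h
    exact s2 fun D hD => by_contra fun h' => h ⟨D, hD, h'⟩
  obtain ⟨a, ha, ka, a4⟩ := h1
  obtain ⟨b, hb, kb, b4⟩ := h2
  have t1 : ¬ ∃ i ∈ e.Z, i ∈ s.Z ∧ Sum.inl i ∉ D := fun ⟨i, c, d, f⟩ =>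
    s2 (Or.inl ⟨i, c, mem_insert_of_mem d, f⟩)
  have t2 : ∀ p ∈ e.R, p ∈ s.R → Sum.inr p ∉ D →
      p.1 = 0 ∧ (p.2 ∈ insert e.u e.H ∨ p.2 ∈ s.H) := fun p c d f => by
    by_contra h
    exact s2 (Or.inr ⟨p, c, d, f, h⟩)
  have t3 : ∀ x, (0, x) ∈ e.R → (0, x) ∈ s.R → Sum.inr (0, x) ∉ D →
      x = e.u ∨ x ∈ e.H ∨ x ∈ s.H := fun x c d f => by
    simpa [or_assoc] using (t2 _ c d f).2
  have k : s.u = e.u ∧ (0, e.u) ∈ s.R := by
    rcases pair_Fc (K := insert e.u e.H) (μ := e.u) hE hD hs ha hb ka kb (a4.trans b4)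
      (fun x hx => (mem_insert.1 hx).symm.imp id fun h => ⟨h, a4, b4⟩) with
      ((h | ⟨p, c, d, f, g⟩) | ⟨x, c, d, f⟩) | ⟨-, h | h⟩
    · exact absurd h t1
    · exact absurd (t2 p c d f).1 g
    · exact ((t2 _ c.1 c.2.1 c.2.2).2.elim d f).elim
    · exact ⟨h.1, h.2.2.2.2.2.1⟩
    · exact absurd h.1 s1
  exact ⟨s, hs, D, hD, k.1, k.2, t1, fun p c d f => (t2 p c d f).1, t3, fun x hx =>
    lt_of_le_of_ne (k.1 ▸ ((hE.val s hs).mark x hx).1) fun h => s1 (by rw [k.1, h]; exact hx)⟩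

/-- The fibre over the flipped triangulation is empty. -/
theorem moved_empty (hl : l + 3 < n) (hE : FamE n l t E) {e g : EOb} (he : e ∈ E) (hg : g ∈ E)
    (h1 : Lower E e) (h2 : Upper E e) (h3 : Bad l t E e) (hZ : g.Z = e.Z)
    (hR : g.R = flp n (l + 1) e.R e.u) (hH : g.H = e.H) : False := by
  obtain ⟨s, hs, D, hD, s1, s2, s3, s4, s5, s6⟩ := bad_partner hE h1 h2 h3
  obtain ⟨i1, i2⟩ := inner_mem hl hE he h1 h2
  obtain ⟨-, f2, -, f4⟩ := flp_spec (hE.val e he).tri i1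
  rw [← hR] at f2 f4
  have f5 : ∀ p ∈ g.R, p ∈ s.R → p ∈ e.R := fun p c d =>
    (f4 p c).resolve_right ((hE.val s hs).tri.nc p d _ s2)
  have w := (hE.val e he).tri.wch i1
  rcases hE.meet g hg s hs D hD with (h | ⟨p, c, d, f, h⟩) | k | ⟨x, ⟨c, d, f⟩, k⟩
  · exact s3 (hZ ▸ h)
  · exact h (s4 p (f5 p c d) d f)
  · have h4 := (hE.val g hg).ap
    rw [k.1, s1] at h4
    rcases h4 with h4 | h4 | h4
    · omega
    · omega
    · exact f2 h4
  · rw [hH, s1] at k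
    rcases s5 x (f5 _ c d) d f with h | h | h
    · exact f2 (h ▸ c)
    · have := i2 x h
      rcases k with k | k
      · omega
      · exact k.2.2.1 h
    · have := s6 x h
      rcases k with k | k
      · omega
      · exact k.2.2.2 h

theorem moved_le (hl : l + 3 < n) (hE : FamE n l t E) {e e' : EOb} (he : e ∈ E) (he' : e' ∈ E)
    (h1 : Lower E e) (h2 : Upper E e) (h3 : Bad l t E e) (h1' : Lower E e') (h2' : Upper E e')
    (hZ : e'.Z = e.Z) (hR : flp n (l + 1) e'.R e'.u = flp n (l + 1) e.R e.u) (hH : e'.H = e.H) :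
    e'.u = e.u := by
  by_contra hne
  obtain ⟨s, hs, D, hD, s1, s2, s3, s4, s5, s6⟩ := bad_partner hE h1 h2 h3
  obtain ⟨i1, i2⟩ := inner_mem hl hE he h1 h2
  obtain ⟨j1, j2⟩ := inner_mem hl hE he' h1' h2'
  obtain ⟨-, f2, -, f4⟩ := flp_spec (hE.val e he).tri i1
  obtain ⟨-, -, g3, -⟩ := flp_spec (hE.val e' he').tri j1
  rw [hR] at g3
  have f5 : ∀ p ∈ e'.R, p ∈ s.R → p ≠ (0, e'.u) → p ∈ e.R ∧ p ≠ (0, e.u) := fun p c d x =>
    ⟨(f4 p (g3 p c x)).resolve_right ((hE.val s hs).tri.nc p d _ s2), fun h => f2 (h ▸ g3 p c x)⟩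
  have f6 : ∀ x, CD D e' s x → x = e'.u ∨ (e.u < x ∧ (x ∈ e'.H ∨ x ∈ s.H)) :=
    fun x ⟨c, d, f⟩ => by
    by_cases h : x = e'.u
    · exact Or.inl h
    · have := f5 _ c d (by simpa using h)
      rcases (s5 x this.1 d f).resolve_left (by simpa using this.2) with h4 | h4
      · exact Or.inr ⟨i2 x h4, Or.inl (hH ▸ h4)⟩
      · exact Or.inr ⟨s6 x h4, Or.inr h4⟩
  have t4 : ¬ EasyD D e' s := by
    rw [EasyD, hZ]
    rintro (h | ⟨p, c, d, f, h⟩)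
    · exact s3 h
    · exact h (s4 p (f5 p c d fun x => h (by rw [x])).1 d f)
  have w := (hE.val e he).tri.wch i1
  have t5 : ∀ a ∈ E, Key e' a → a.u ≠ s.u := fun a ha ka h => by
    have h4 := (hE.val a ha).ap
    rw [h, s1, ka.2.2.1] at h4
    rcases h4 with h4 | h4 | h4
    · omega
    · omega
    · exact f2 (g3 _ h4 fun c => hne (Prod.mk.inj c).2.symm)
  obtain ⟨a, ha, ka, a4⟩ := h1'
  obtain ⟨b, hb, kb, b4⟩ := h2'
  obtain ⟨x, x1, x2⟩ := ((meet_key hE hD ha hs ka (key_refl33 s)).resolve_left t4).resolve_left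
    fun h => t5 a ha ka h.1
  obtain ⟨y, y1, y2⟩ := ((meet_key hE hD hb hs kb (key_refl33 s)).resolve_left t4).resolve_left
    fun h => t5 b hb kb h.1
  have x3 := f6 x x1
  have y3 := f6 y y1
  rw [s1] at x2 y2
  clear f6 t5 t4 f5 g3 f4 s3 s4 s5 s6 i2 j2 x1 y1 ka kb hE h1 h2 h3 hR
  grind

theorem lab_inj (hl : l + 3 < n) (hE : FamE n l t E) {e e' : EOb} (he : e ∈ E) (he' : e' ∈ E)
    (h : lab n l t E e = lab n l t E e') : e = e' := by
  have nl : ∀ g ∈ E, l ∉ g.Z := fun g hg x => by simpa using (hE.val g hg).red x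
  have n1 := nl e he
  have n2 := nl e' he'
  have ins : insert l e.Z = insert l e'.Z → e.Z = e'.Z := fun x => by
    rw [← erase_insert n1, x, erase_insert n2]
  have a1 : insert l e.Z ≠ e'.Z := fun x => n2 (x ▸ mem_insert_self _ _)
  have a2 : e.Z ≠ insert l e'.Z := fun x => n1 (x ▸ mem_insert_self _ _)
  rcases lab_cases n l t E e with ⟨p, q⟩ | ⟨-, p, q⟩ | ⟨-, p, q⟩ | ⟨p, p1, p2, q⟩ | ⟨p, p1, -, q⟩ <;>
  rcases lab_cases n l t E e' with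
    ⟨p', q'⟩ | ⟨-, p', q'⟩ | ⟨-, p', q'⟩ | ⟨p', p1', p2', q'⟩ | ⟨p', p1', -, q'⟩ <;>
  rw [q, q'] at h <;>
  simp only [obD, obR, obB, obM, obU, Ob.mk.injEq, List.cons.injEq, a1, a2, false_and,
    true_and, Fin.reduceEq, and_false] at h
  · obtain ⟨c1, c2, c3, c4⟩ := h
    have u : e.u = e'.u := le_antisymm (p.2 e' he' p'.1 c1.symm c2.symm c3.symm c4.symm)
      (p'.2 e he p.1 c1 c2 c3 c4)
    refine EOb.ext c1 c2 c3 ?_ u
    rw [← insert_erase p.1.2.2, c4, u, insert_erase p'.1.2.2]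
  · obtain ⟨c1, c2, c3, c4⟩ := h
    have c1 := ins c1
    exact EOb.ext c1 c2 c3 c4 (le_antisymm
      (not_lt.1 fun x => p ⟨e', he', ⟨c1.symm, c2.symm, c3.symm, c4.symm⟩, x⟩)
      (not_lt.1 fun x => p' ⟨e, he, ⟨c1, c2, c3, c4⟩, x⟩))
  · exact (moved_empty hl hE he' he p' p1' p2' (ins h.1) h.2.2.1 h.2.2.2).elim
  · obtain ⟨c1, c2, c3, c4⟩ := h
    exact EOb.ext c1 c2 c3 c4 (le_antisymm
      (not_lt.1 fun x => p' ⟨e, he, ⟨c1, c2, c3, c4⟩, x⟩)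
      (not_lt.1 fun x => p ⟨e', he', ⟨c1.symm, c2.symm, c3.symm, c4.symm⟩, x⟩))
  · exact (moved_empty hl hE he he' p p1 p2 (ins h.1).symm h.2.2.1.symm h.2.2.2.symm).elim
  · obtain ⟨c1, c2, c3, c4⟩ := h
    have c1 := ins c1
    have u := moved_le hl hE he' he p' p1' p2' p p1 c1 c3 c4
    have i1 := (inner_mem hl hE he p p1).1
    have j1 := (inner_mem hl hE he' p' p1').1
    obtain ⟨f1, -, f3, -⟩ := flp_spec (hE.val e he).tri i1
    obtain ⟨-, -, g3, -⟩ := flp_spec (hE.val e' he').tri j1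
    rw [← c3, ← u] at g3
    rw [← u] at j1
    refine EOb.ext c1 c2 (tri_eq (hE.val e he).tri (hE.val e' he').tri fun x hx y hy => ?_) c4 u
    by_cases x0 : x = (0, e.u)
    · exact (hE.val e' he').tri.nc x (x0 ▸ j1) y hy
    by_cases y0 : y = (0, e.u)
    · exact (hE.val e he).tri.nc x hx y (y0 ▸ i1)
    exact f1.nc x (f3 x hx x0) y (g3 y hy y0)
  · obtain ⟨c1, c2, c3, c4⟩ := h
    have i2 := (inner_mem hl hE he p p1).2
    have j2 := (inner_mem hl hE he' p' p1').2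
    have u : e.u = e'.u := by
      have x1 : e.u ∈ insert e'.u e'.H := c4 ▸ mem_insert_self _ _
      have x2 : e'.u ∈ insert e.u e.H := c4 ▸ mem_insert_self _ _
      rw [mem_insert] at x1 x2
      grind
    refine EOb.ext c1 c2 c3 ?_ u
    rw [← erase_insert (fun x => lt_irrefl _ (i2 _ x)), c4, u,
      erase_insert fun x => lt_irrefl _ (j2 _ x)]

end Pool.Agent.Lib.MP_04fdae_co.T
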