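import Pool.Agent.Lib.MP_04fdae_co.T.Defs

/-! Objects that meet outside every small set of forbidden tokens, and the labelling map. -/

namespace Pool.Agent.Lib.MP_04fdae_co.T

open Finset X

/-- red positions and chords -/
abbrev Tok : Type := ℕ ⊕ ℕ × ℕ

def MeetD (D : Finset Tok) (o o' : Ob) : Prop :=
  (∃ i ∈ o.Z, i ∈ o'.Z ∧ Sum.inl i ∉ D) ∨
    ∃ p ∈ o.S, p ∈ o'.S ∧ Sum.inr p ∉ D ∧ ¬ (p.1 = 0 ∧ (p.2 ∈ o.H ∨ p.2 ∈ o'.H))

/-- at least `t` common tokens -/
def MeetT (t : ℕ) (o o' : Ob) : Prop := ∀ D : Finset Tok, D.card < t → MeetD D o o'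

structure FamT (n l t : ℕ) (G : Finset Ob) : Prop where
  val : ∀ o ∈ G, Val n l o
  meet : ∀ o ∈ G, ∀ o' ∈ G, MeetT t o o'

def EasyD (D : Finset Tok) (e e' : EOb) : Prop :=
  (∃ i ∈ e.Z, i ∈ e'.Z ∧ Sum.inl i ∉ D) ∨ ∃ p ∈ e.R, p ∈ e'.R ∧ Sum.inr p ∉ D ∧ p.1 ≠ 0

def Core (s : Prop) (X : ℕ → Prop) (H H' : Finset ℕ) (u u' : ℕ) : Prop :=
  (u = u' ∧ u ∉ H ∧ u ∉ H' ∧ s) ∨
    ∃ x, X x ∧ ((x ≤ u ∧ x ≤ u') ∨ (u ≤ x ∧ u' ≤ x ∧ x ∉ H ∧ x ∉ H'))

def CD (D : Finset Tok) (e e' : EOb) : ℕ → Prop :=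
  fun x => (0, x) ∈ e.R ∧ (0, x) ∈ e'.R ∧ Sum.inr (0, x) ∉ D

structure FamE (n l t : ℕ) (E : Finset EOb) : Prop where
  val : ∀ e ∈ E, ValE n l e
  meet : ∀ e ∈ E, ∀ e' ∈ E, ∀ D : Finset Tok, D.card < t →
    EasyD D e e' ∨ Core (Sum.inl l ∉ D) (CD D e e') e.H e'.H e.u e'.u

def Bad (l t : ℕ) (E : Finset EOb) (e : EOb) : Prop :=
  ∃ s ∈ E, ¬ Lower E s ∧ ¬ Upper E s ∧ s.u ∉ s.H ∧ ¬ MeetT t (obU e) (obR l s)

open Classical in
noncomputable def lab (n l t : ℕ) (E : Finset EOb) (e : EOb) : Ob :=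
  if TakesD E e then obD e else if ¬ Lower E e then obR l e else if ¬ Upper E e then obB e
  else if Bad l t E e then obM n l e else obU e

theorem lab_cases (n l t : ℕ) (E : Finset EOb) (e : EOb) :
    (TakesD E e ∧ lab n l t E e = obD e) ∨
    (¬ TakesD E e ∧ ¬ Lower E e ∧ lab n l t E e = obR l e) ∨
    (Lower E e ∧ ¬ Upper E e ∧ lab n l t E e = obB e) ∨
    (Lower E e ∧ Upper E e ∧ Bad l t E e ∧ lab n l t E e = obM n l e) ∨
    (Lower E e ∧ Upper E e ∧ ¬ Bad l t E e ∧ lab n l t E e = obU e) := by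
  unfold lab
  by_cases h1 : TakesD E e
  · exact Or.inl ⟨h1, if_pos h1⟩
  · rw [if_neg h1]
    by_cases h2 : Lower E e
    · rw [if_neg (not_not.2 h2)]
      by_cases h3 : Upper E e
      · rw [if_neg (not_not.2 h3)]
        by_cases h4 : Bad l t E e
        · exact Or.inr (Or.inr (Or.inr (Or.inl ⟨h2, h3, h4, if_pos h4⟩)))
        · exact Or.inr (Or.inr (Or.inr (Or.inr ⟨h2, h3, h4, if_neg h4⟩)))
      · exact Or.inr (Or.inr (Or.inl ⟨h2, h3, if_pos h3⟩))
    · exact Or.inr (Or.inl ⟨h1, h2, if_pos h2⟩)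

variable {n l t : ℕ} {E : Finset EOb}

theorem inner_mem (hl : l + 3 < n) (hE : FamE n l t E) {e : EOb}
    (he : e ∈ E) (h1 : Lower E e) (h2 : Upper E e) : (0, e.u) ∈ e.R ∧ ∀ x ∈ e.H, e.u < x := by
  obtain ⟨a, ha, -, ha2⟩ := h1
  obtain ⟨b, hb, hb1, hb2⟩ := h2
  have h3 := (hE.val a ha).bd hl
  have h4 := (hE.val b hb).bd hl
  refine ⟨?_, fun x hx => lt_of_lt_of_le hb2 ((hE.val b hb).mark x (hb1.2.2.2 ▸ hx)).1⟩
  rcases (hE.val e he).ap with h5 | h5 | h5
  · omega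
  · omega
  · exact h5

theorem lab_val (hl : l + 3 < n) (hE : FamE n l t E) {e : EOb} (he : e ∈ E) :
    Val n (l + 1) (lab n l t E e) := by
  have hv := hE.val e he
  have hb := hv.bd hl
  have hc : e.Z.card ≤ l := by simpa using card_le_card hv.red
  have e1 : l + 1 - e.Z.card = l - e.Z.card + 1 := by omega
  have r1 : e.Z ⊆ range (l + 1) := hv.red.trans (range_subset_range.2 l.le_succ)
  have r2 : insert l e.Z ⊆ range (l + 1) := insert_subset (self_mem_range_succ l) r1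
  have w2 : e.w ∈ MzF (l + 1 - (insert l e.Z).card) e.H.card := by
    rw [card_insert_of_notMem fun h => notMem_range_self (hv.red h), Nat.add_sub_add_right]
    exact hv.word
  have lo : Lower E e → ∀ x ∈ e.H, (0, x) ∈ e.R := fun ⟨a, ha, _, h⟩ x hx =>
    (hv.mark x hx).2.resolve_right fun t => by
      have := (hE.val a ha).bd hl
      have := (hv.mark x hx).1
      omega
  rcases lab_cases n l t E e with ⟨h, q⟩ | ⟨h, h', q⟩ | ⟨h, -, q⟩ | ⟨h, h', -, q⟩ | ⟨h, h', -, q⟩ <;>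
    rw [q]
  · refine ⟨r1, ?_, hv.tri, fun x hx => ?_⟩
    · change (2 : Fin 3) :: e.w ∈ MzF (l + 1 - e.Z.card) (e.H.erase e.u).card
      rw [e1, mz_down, card_erase_add_one h.1.2.2]
      exact hv.word
    · obtain ⟨h1, h2⟩ := mem_erase.1 hx
      have := hv.mark x h2
      exact this.2.resolve_right (by omega)
  · refine ⟨r2, w2, hv.tri, fun x hx => (hv.mark x hx).2.resolve_right fun t => h ?_⟩
    have h1 : e.u = x := by
      have := (hv.mark x hx).1
      omega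
    refine ⟨⟨h', fun ⟨b, hb', k, h2⟩ => ?_, h1 ▸ hx⟩, fun k hk _ _ _ _ _ => ?_⟩
    · have := ((hE.val b hb').mark x (k.2.2.2 ▸ hx)).1
      omega
    · have := (hE.val k hk).bd hl
      omega
  · refine ⟨r1, ?_, hv.tri, lo h⟩
    change (0 : Fin 3) :: e.w ∈ MzF (l + 1 - e.Z.card) e.H.card
    rw [e1, mz_flat]
    exact hv.word
  · obtain ⟨h1, h2⟩ := inner_mem hl hE he h h'
    obtain ⟨h3, -, h4, -⟩ := flp_spec hv.tri h1
    exact ⟨r2, w2, h3, fun x hx => h4 _ (lo h x hx) fun t => (h2 x hx).ne' (Prod.ext_iff.1 t).2⟩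
  · obtain ⟨h1, h2⟩ := inner_mem hl hE he h h'
    refine ⟨r1, ?_, hv.tri, fun x hx => ?_⟩
    · change (1 : Fin 3) :: e.w ∈ MzF (l + 1 - e.Z.card) (insert e.u e.H).card
      rw [e1, card_insert_of_notMem fun t => (h2 _ t).false, mz_up]
      exact hv.word
    · rcases mem_insert.1 hx with rfl | hx
      · exact h1
      · exact lo h x hx

/-- the token of the old level that stands for a token of the contraction -/
def back (n l u u' : ℕ) : Tok → Tok
  | Sum.inl i => if i = l then (if u + 1 = n then Sum.inr (l + 1, u) else Sum.inr (0, u))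
      else Sum.inl i
  | Sum.inr p => if p.1 = 0 ∧ p.2 ≤ u ∧ p.2 ≤ u' then Sum.inr (l + 1, p.2) else Sum.inr p

theorem exists_E (hl : l + 3 < n) {G : Finset Ob} (hG : FamT n l t G) :
    ∃ E : Finset EOb, FamE n l t E ∧ E.card = G.card := by
  classical
  have h0 : ∀ o : Ob, ∃ R u, o ∈ G → Tri n (l + 1) R ∧ Con n l o.S R u := fun o => by
    by_cases h : o ∈ G
    · obtain ⟨R, u, h1⟩ := con_exists hl (hG.val o h).tri
      exact ⟨R, u, fun _ => h1⟩
    · exact ⟨∅, 0, fun h1 => absurd h1 h⟩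
  choose R u h using h0
  have hv : ∀ o ∈ G, ValE n l ⟨o.Z, o.w, R o, o.H, u o⟩ := fun o ho =>
    ⟨(hG.val o ho).red, (hG.val o ho).word, (h o ho).1, (h o ho).2.ap,
      fun x hx => ((h o ho).2.wch x).1 ((hG.val o ho).mark x hx)⟩
  refine ⟨G.image fun o => ⟨o.Z, o.w, R o, o.H, u o⟩, ⟨?_, ?_⟩, card_image_of_injOn ?_⟩
  · intro e he
    obtain ⟨o, ho, rfl⟩ := mem_image.1 he
    exact hv o ho
  · intro e he e' he' D hD
    obtain ⟨o, ho, rfl⟩ := mem_image.1 he
    obtain ⟨o', ho', rfl⟩ := mem_image.1 he'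
    have b1 : l + 2 ≤ u o ∧ u o < n := (hv o ho).bd hl
    have b2 : l + 2 ≤ u o' ∧ u o' < n := (hv o' ho').bd hl
    have hb : ∀ σ τ : Tok, back n l (u o) (u o') σ = τ →
        τ ∉ D.image (back n l (u o) (u o')) → σ ∉ D :=
      fun σ τ h1 h2 h3 => h2 (h1 ▸ mem_image_of_mem _ h3)
    rcases hG.meet o ho o' ho' (D.image (back n l (u o) (u o'))) (card_image_le.trans_lt hD) with
      ⟨i, i1, i2, i3⟩ | ⟨⟨a, b⟩, p1, p2, p0, p3⟩
    · have : i ≠ l := (mem_range.1 ((hG.val o ho).red i1)).ne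
      exact Or.inl (Or.inl ⟨i, i1, i2, hb _ _ (if_neg this) i3⟩)
    · by_cases a0 : a = 0
      · subst a0
        have q1 := ((h o ho).2.wch b).1 p1
        have q2 := ((h o' ho').2.wch b).1 p2
        have q3 := (hG.val o ho).tri.wch p1
        have m1 : b ∉ o.H := fun m => p3 ⟨rfl, Or.inl m⟩
        have m2 : b ∉ o'.H := fun m => p3 ⟨rfl, Or.inr m⟩
        by_cases hc : u o = b ∧ u o' = b
        · refine Or.inr (Or.inl ⟨hc.1.trans hc.2.symm, hc.1 ▸ m1, hc.1 ▸ m2, hb _ _ ?_ p0⟩)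
          rw [back, if_pos rfl, if_neg (by omega), hc.1]
        · have hb' : b ≠ l + 2 := by omega
          refine Or.inr (Or.inr ⟨b, ⟨q1.2.resolve_right hb', q2.2.resolve_right hb',
            hb _ _ (if_neg ?_) p0⟩, Or.inr ⟨q1.1, q2.1, m1, m2⟩⟩)
          simp only
          omega
      · by_cases a1 : a = l + 1
        · subst a1
          have q1 := ((h o ho).2.vch b).1 p1
          have q2 := ((h o' ho').2.vch b).1 p2
          by_cases hc : b + 1 = n
          · have e1 : u o = b := by omega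
            have e2 : u o' = b := by omega
            refine Or.inr (Or.inl ⟨e1.trans e2.symm, fun m => ?_, fun m => ?_, hb _ _ ?_ p0⟩)
            · have := (hG.val o ho).tri.wch ((hG.val o ho).mark _ m)
              simp only at this
              omega
            · have := (hG.val o' ho').tri.wch ((hG.val o' ho').mark _ m)
              simp only at this
              omega
            · rw [back, if_pos rfl, if_pos (by omega), e1]
          · exact Or.inr (Or.inr ⟨b, ⟨q1.2.resolve_right hc, q2.2.resolve_right hc,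
              hb _ _ (if_pos ⟨rfl, q1.1, q2.1⟩) p0⟩, Or.inl ⟨q1.1, q2.1⟩⟩)
        · have d := (hG.val o ho).tri.dg _ p1
          have a2 : l + 2 ≤ a := by
            unfold Dg at d
            simp only at d
            omega
          exact Or.inl (Or.inr ⟨(a, b), ((h o ho).2.far a b a2).1 p1,
            ((h o' ho').2.far a b a2).1 p2, hb _ _ (if_neg fun c => a0 c.1) p0, a0⟩)
  · intro o ho o' ho' e
    obtain ⟨e1, e2, e3, e4, e5⟩ := EOb.mk.inj e
    have c := (h o' ho').2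
    rw [← e3, ← e5] at c
    exact Ob.ext e1 e2 (con_inj (hG.val o ho).tri (hG.val o' ho').tri (h o ho).2 c) e4

end Pool.Agent.Lib.MP_04fdae_co.T
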