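import Pool.Agent.Lib.MP_04fdae_co.T.Lab

/-! The labelling map keeps the number of common tokens. -/

namespace Pool.Agent.Lib.MP_04fdae_co.T

open Finset X

section Ord

variable {X : ℕ → Prop} {s s' : Prop}

theorem nm_key {K K' : Finset ℕ} (hc : ¬ NM X K K') : ∀ x, X x → x ∈ K ∨ x ∈ K' := by
  intro x hx
  by_contra h
  exact hc ⟨x, hx, fun a => h (Or.inl a), fun a => h (Or.inr a)⟩

theorem ord_b {lo hi lo' hi' μ μ' : ℕ} {H H' K K' : Finset ℕ} (h2 : lo < hi) (h2' : lo' < hi')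
    (hH : ∀ x ∈ H, hi ≤ x) (hH' : ∀ x ∈ H', hi' ≤ x)
    (hK : ∀ x ∈ K, x ∈ H ∨ (x = μ ∧ lo < μ ∧ μ < hi))
    (hK' : ∀ x ∈ K', x ∈ H' ∨ (x = μ' ∧ lo' < μ' ∧ μ' < hi'))
    (m1 : Core s X H H' lo hi') (m2 : Core s' X H H' hi lo') : NM X K K' := by
  by_contra hc
  have key := nm_key hc
  rcases m1 with m1 | ⟨x, hx, m1⟩ <;> rcases m2 with m2 | ⟨y, hy, m2⟩
  · omega
  · have a2 := key y hy
    have b2 := hK y
    have b4 := hK' y
    have c2 := hH y
    have c4 := hH' y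
    have := m1.1
    clear key hK hK' hH hH' hc m1
    grind
  · have a1 := key x hx
    have b1 := hK x
    have b3 := hK' x
    have c1 := hH x
    have c3 := hH' x
    have := m2.1
    clear key hK hK' hH hH' hc m2
    grind
  · have a1 := key x hx
    have a2 := key y hy
    have b1 := hK x
    have b2 := hK y
    have b3 := hK' x
    have b4 := hK' y
    have c1 := hH x
    have c2 := hH y
    have c3 := hH' x
    have c4 := hH' y
    clear key hK hK' hH hH' hc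
    grind

theorem ord_c {lo hi u' μ : ℕ} {H H' K : Finset ℕ} (h2 : lo < hi)
    (hH : ∀ x ∈ H, hi ≤ x) (hH' : ∀ x ∈ H', u' ≤ x)
    (hK : ∀ x ∈ K, x ∈ H ∨ (x = μ ∧ lo < μ ∧ μ < hi))
    (m1 : Core s X H H' lo u') (m2 : Core s' X H H' hi u') (hc : ¬ NM X K H') :
    (u' = μ ∧ lo < μ ∧ μ < hi ∧ μ ∉ H' ∧ X μ) ∨
      (u' ∈ H' ∧ X u' ∧ u' < hi ∧ (u' ≤ lo ∨ u' < μ)) := by
  have key := nm_key hc
  rcases m1 with m1 | ⟨x, hx, m1⟩
  · rcases m2 with m2 | ⟨y, hy, m2⟩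
    · omega
    have a2 := key y hy
    have b2 := hK y
    have c2 := hH y
    have c4 := hH' y
    obtain ⟨rfl, -, d2, -⟩ := m1
    clear key hK hH hH' hc
    grind
  have a1 := key x hx
  have b1 := hK x
  have c1 := hH x
  have c3 := hH' x
  rcases m1 with m1 | m1
  · have e1 : x ∈ H' := by grind
    have e2 : x = u' := by grind
    subst e2
    exact Or.inr ⟨e1, hx, by omega, Or.inl m1.1⟩
  have e1 : x = μ ∧ lo < μ ∧ μ < hi := by grind
  obtain ⟨rfl, e2, e3⟩ := e1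
  rcases m2 with m2 | ⟨y, hy, m2⟩
  · omega
  have a2 := key y hy
  have b2 := hK y
  have c2 := hH y
  have c4 := hH' y
  rcases m2 with m2 | m2
  · by_cases e4 : y ∈ H'
    · have e5 : y = u' := by grind
      subst e5
      have e6 : y ≠ x := fun h => m1.2.2.2 (h ▸ e4)
      exact Or.inr ⟨e4, hy, by omega, Or.inr (by omega)⟩
    · have e5 : y = x := by grind
      exact Or.inl ⟨by omega, e2, e3, m1.2.2.2, hx⟩
  · exfalso
    grind

theorem ord_d {u u' : ℕ} {H H' K : Finset ℕ} (hu' : u' ∈ H') (hH' : ∀ x ∈ H', u' ≤ x)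
    (hK : ∀ x ∈ K, x ∈ H ∧ u < x) (m : Core s X H H' u u') : NM X K (H'.erase u') := by
  rcases m with m | ⟨x, hx, m⟩
  · exact absurd (m.1 ▸ hu') m.2.2.1
  refine ⟨x, hx, ?_, ?_⟩
  · intro h
    have := hK x h
    grind
  · intro h
    rw [Finset.mem_erase] at h
    have := hH' x h.2
    grind

theorem ord_p2 {ν ν' hi : ℕ} {H H1 H2 K : Finset ℕ} (hlt : ν' < ν) (hhi : ν ≤ hi)
    (hH1 : ∀ x ∈ H1, ν ≤ x) (he : H2.erase ν' = H1.erase ν)
    (hK : ∀ x ∈ K, ν ≤ x ∧ (x ∈ H ∨ x < hi)) (hm : ν = hi → hi ∈ H)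
    (m : Core s X H H2 hi ν') : NM X K H1 := by
  rcases m with m | ⟨x, hx, m⟩
  · omega
  refine ⟨x, hx, ?_, ?_⟩
  · intro h
    have := hK x h
    grind
  · intro h
    have h1 := hH1 x h
    rcases m with m | m
    · omega
    · by_cases hxν : x = ν
      · have : ν = hi := by omega
        exact m.2.2.1 (by rw [hxν, this]; exact hm this)
      · have : x ∈ H2.erase ν' := by rw [he]; exact Finset.mem_erase.2 ⟨hxν, h⟩
        exact m.2.2.2 (Finset.mem_of_mem_erase this)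

end Ord

variable {n l t : ℕ} {E : Finset EOb} {D : Finset Tok}

theorem meetD_symm {o o' : Ob} (h : MeetD D o o') : MeetD D o' o := by
  rcases h with ⟨i, h1, h2, h3⟩ | ⟨p, h1, h2, h0, h3⟩
  · exact Or.inl ⟨i, h2, h1, h3⟩
  · exact Or.inr ⟨p, h2, h1, h0, fun h => h3 ⟨h.1, h.2.symm⟩⟩

theorem easyD_symm {e e' : EOb} (h : EasyD D e e') : EasyD D e' e := by
  rcases h with ⟨i, a, b, c⟩ | ⟨p, a, b, c⟩
  · exact Or.inl ⟨i, b, a, c⟩
  · exact Or.inr ⟨p, b, a, c⟩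

theorem meet_of_dom {e e' : EOb} {K K' : Finset ℕ} {o o' : Ob} (h : Dom e K o) (h' : Dom e' K' o')
    (m : EasyD D e e' ∨ NM (CD D e e') K K') : MeetD D o o' := by
  rcases m with (⟨i, h1, h2, h3⟩ | ⟨p, h1, h2, h0, h3⟩) | ⟨x, h1, h2, h3⟩
  · exact Or.inl ⟨i, h.1 h1, h'.1 h2, h3⟩
  · exact Or.inr ⟨p, h.2.1 p h1 h3, h'.2.1 p h2 h3, h0, fun hh => h3 hh.1⟩
  · have a := h.2.2 x h1.1 h2
    have b := h'.2.2 x h1.2.1 h3
    exact Or.inr ⟨(0, x), a.1, b.1, h1.2.2, fun hh => hh.2.elim a.2 b.2⟩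

theorem meet_key (hE : FamE n l t E) (hD : D.card < t) {e e' a a' : EOb} (ha : a ∈ E)
    (ha' : a' ∈ E) (k : Key e a) (k' : Key e' a') :
    EasyD D e e' ∨ Core (Sum.inl l ∉ D) (CD D e e') e.H e'.H a.u a'.u := by
  have h := hE.meet a ha a' ha' D hD
  unfold EasyD CD at h
  rw [k.1, k.2.2.1, k.2.2.2, k'.1, k'.2.2.1, k'.2.2.2] at h
  exact h

theorem mark_key (hE : FamE n l t E) {e a : EOb} (ha : a ∈ E) (k : Key e a) :
    ∀ x ∈ e.H, a.u ≤ x := fun x hx => ((hE.val a ha).mark x (k.2.2.2 ▸ hx)).1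

theorem pair_FF (hE : FamE n l t E) (hD : D.card < t) {e e' : EOb} {K K' : Finset ℕ} {μ μ' : ℕ}
    (h : TF E e K μ) (h' : TF E e' K' μ') : EasyD D e e' ∨ NM (CD D e e') K K' := by
  obtain ⟨a, ha, b, hb, ka, kb, hab, hK⟩ := h
  obtain ⟨a', ha', b', hb', ka', kb', hab', hK'⟩ := h'
  rcases meet_key hE hD ha hb' ka kb' with m1 | m1
  · exact Or.inl m1
  rcases meet_key hE hD hb ha' kb ka' with m2 | m2
  · exact Or.inl m2
  exact Or.inr (ord_b hab hab' (mark_key hE hb kb) (mark_key hE hb' kb') hK hK' m1 m2)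

theorem pair_Fc (hE : FamE n l t E) (hD : D.card < t) {e e' a b : EOb} {K : Finset ℕ} {μ : ℕ}
    (he' : e' ∈ E) (ha : a ∈ E) (hb : b ∈ E) (ka : Key e a) (kb : Key e b)
    (hab : a.u < b.u) (hK : ∀ x ∈ K, x ∈ e.H ∨ (x = μ ∧ a.u < μ ∧ μ < b.u)) :
    (EasyD D e e' ∨ NM (CD D e e') K e'.H) ∨ (¬ EasyD D e e' ∧
      ((e'.u = μ ∧ a.u < μ ∧ μ < b.u ∧ μ ∉ e'.H ∧ CD D e e' μ) ∨
      (e'.u ∈ e'.H ∧ CD D e e' e'.u ∧ e'.u < b.u ∧ (e'.u ≤ a.u ∨ e'.u < μ)))) := by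
  by_cases h0 : EasyD D e e'
  · exact Or.inl (Or.inl h0)
  by_cases h1 : NM (CD D e e') K e'.H
  · exact Or.inl (Or.inr h1)
  have m1 := (meet_key hE hD ha he' ka (key_refl33 e')).resolve_left h0
  have m2 := (meet_key hE hD hb he' kb (key_refl33 e')).resolve_left h0
  exact Or.inr ⟨h0, ord_c hab (mark_key hE hb kb) (mark_key hE he' (key_refl33 e')) hK m1 m2 h1⟩

theorem pair_FD (hE : FamE n l t E) (hD : D.card < t) {e e' : EOb} {K : Finset ℕ} {μ : ℕ}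
    (he' : e' ∈ E) (h : TF E e K μ) (h' : e'.u ∈ e'.H) :
    EasyD D e e' ∨ NM (CD D e e') K (e'.H.erase e'.u) := by
  obtain ⟨a, ha, b, hb, ka, kb, hab, hK⟩ := h
  rcases pair_Fc hE hD he' ha hb ka kb hab hK with (m | ⟨x, h1, h2, h3⟩) | ⟨-, m | m⟩
  · exact Or.inl m
  · exact Or.inr ⟨x, h1, h2, fun hh => h3 (mem_of_mem_erase hh)⟩
  · exact absurd (m.1 ▸ h') m.2.2.2.1
  · refine Or.inr ⟨e'.u, m.2.1, fun hh => ?_, notMem_erase _ _⟩
    rcases hK _ hh with h1 | h1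
    · have := mark_key hE hb kb _ h1
      omega
    · omega

theorem meet_rival (hE : FamE n l t E) (hD : D.card < t) {e e' a k : EOb} (ha : a ∈ E)
    (hk : k ∈ E) (ka : Key e a) (hZ : k.Z = e'.Z) (hR : k.R = e'.R) :
    EasyD D e e' ∨ Core (Sum.inl l ∉ D) (CD D e e') e.H k.H a.u k.u := by
  have h := meet_key hE hD ha hk ka (key_refl33 k)
  unfold EasyD CD at h
  rw [hZ, hR] at h
  exact h

theorem pair_FS2 (hE : FamE n l t E) (hD : D.card < t) {e e' : EOb} {K : Finset ℕ} {μ : ℕ}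
    (he' : e' ∈ E) (h : TF E e K μ) (h1 : ¬ Lower E e') (h2 : ¬ Upper E e')
    (h3 : e'.u ∈ e'.H) (h4 : ¬ TakesD E e') : EasyD D e e' ∨ NM (CD D e e') K e'.H := by
  obtain ⟨a, ha, b, hb, ka, kb, hab, hK⟩ := h
  rcases pair_Fc hE hD he' ha hb ka kb hab hK with m | ⟨h0, m | m⟩
  · exact m
  · exact absurd (m.1 ▸ h3) m.2.2.2.1
  obtain ⟨k, hk, -, kZ, kR, kH, klt⟩ := rival h1 h2 h3 h4
  have m2 := (meet_rival hE hD hb hk kb kZ kR).resolve_left h0
  refine Or.inr (ord_p2 klt m.2.2.1.le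
    (mark_key hE he' (key_refl33 e')) kH (fun x hx => ?_) (fun hh => by omega) m2)
  rcases hK x hx with h5 | h5
  · have := mark_key hE hb kb x h5
    exact ⟨by omega, Or.inl h5⟩
  · exact ⟨by omega, Or.inr (by omega)⟩

theorem pair_DD (hE : FamE n l t E) (hD : D.card < t) {e e' : EOb} (he : e ∈ E) (he' : e' ∈ E)
    (h' : e'.u ∈ e'.H) : EasyD D e e' ∨ NM (CD D e e') (e.H.erase e.u) (e'.H.erase e'.u) := by
  rcases hE.meet e he e' he' D hD with m | m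
  · exact Or.inl m
  refine Or.inr (ord_d h' (mark_key hE he' (key_refl33 e')) (fun x hx => ?_) m)
  rw [mem_erase] at hx
  have := mark_key hE he (key_refl33 e) x hx.2
  exact ⟨hx.2, by omega⟩

theorem pair_SD (hE : FamE n l t E) (hD : D.card < t) {e e' : EOb} (he : e ∈ E) (he' : e' ∈ E)
    (h1 : ¬ Lower E e) (h2 : ¬ Upper E e) (h4 : ¬ TakesD E e) (h' : e'.u ∈ e'.H) :
    EasyD D e e' ∨ NM (CD D e e') e.H (e'.H.erase e'.u) := by
  by_cases h0 : EasyD D e e'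
  · exact Or.inl h0
  have m := (hE.meet e he e' he' D hD).resolve_left h0
  have hm := mark_key hE he (key_refl33 e)
  have hm' := mark_key hE he' (key_refl33 e')
  by_cases h3 : e.u ∈ e.H
  · by_cases h5 : e.u ≤ e'.u
    · obtain ⟨k, hk, -, kZ, kR, kH, klt⟩ := rival h1 h2 h3 h4
      have m2 := (meet_rival (e := e') (e' := e) hE hD he' hk (key_refl33 e') kZ kR).resolve_left
        fun c => h0 (easyD_symm c)
      obtain ⟨x, a, b, c⟩ := ord_p2 (K := e'.H.erase e'.u) klt h5 hm kH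
        (fun x hx => ⟨le_trans h5 (hm' x (mem_of_mem_erase hx)), Or.inl (mem_of_mem_erase hx)⟩)
        (fun _ => h') m2
      exact Or.inr ⟨x, ⟨a.2.1, a.1, a.2.2⟩, c, b⟩
    · rcases m with m | ⟨x, hx, m⟩
      · exact absurd h3 m.2.1
      refine Or.inr ⟨x, hx, fun hh => ?_, fun hh => ?_⟩
      · have := hm x hh
        rcases m with m | m
        · omega
        · exact m.2.2.1 hh
      · rw [mem_erase] at hh
        have := hm' x hh.2
        rcases m with m | m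
        · omega
        · exact m.2.2.2 hh.2
  · refine Or.inr (ord_d h' hm' (fun x hx => ⟨hx, ?_⟩) m)
    have h5 := hm x hx
    have h6 : x ≠ e.u := fun hh => h3 (hh ▸ hx)
    omega

/-- exchange the token of the new red position for a chord at `0` -/
def sub (l x : ℕ) (D : Finset Tok) : Finset Tok := insert (Sum.inr (0, x)) (D.erase (Sum.inl l))

theorem sub_card {x : ℕ} (h : Sum.inl l ∈ D) (hD : D.card < t) : (sub l x D).card < t := by
  have h1 := card_insert_le (Sum.inr (0, x) : Tok) (D.erase (Sum.inl l))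
  have h2 := card_erase_add_one h
  unfold sub
  omega

theorem of_sub (hE : FamE n l t E) {e e' : EOb} (he : e ∈ E) {x : ℕ} {K K' : Finset ℕ}
    (m : EasyD (sub l x D) e e' ∨ NM (CD (sub l x D) e e') K K') :
    EasyD D e e' ∨ NM (CD D e e') K K' := by
  have k : ∀ τ : Tok, τ ≠ Sum.inl l → τ ∉ sub l x D → τ ∉ D := fun τ h1 h2 h3 =>
    h2 (mem_insert_of_mem (mem_erase.2 ⟨h1, h3⟩))
  rcases m with (⟨i, a, b, c⟩ | ⟨p, a, b, c, d⟩) | ⟨y, ⟨a, b, c⟩, d⟩
  · refine Or.inl (Or.inl ⟨i, a, b, k _ (fun h => ?_) c⟩)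
    exact (mem_range.1 ((hE.val e he).red a)).ne (Sum.inl.inj h)
  · exact Or.inl (Or.inr ⟨p, a, b, k _ Sum.inr_ne_inl c, d⟩)
  · exact Or.inr ⟨y, ⟨a, b, k _ Sum.inr_ne_inl c⟩, d⟩

theorem pair_RR (hE : FamE n l t E) (hD : D.card < t) (hl : Sum.inl l ∈ D) {e e' : EOb}
    (he : e ∈ E) (he' : e' ∈ E) : EasyD D e e' ∨ NM (CD D e e') e.H e'.H := by
  have hm := mark_key hE he (key_refl33 e)
  have hm' := mark_key hE he' (key_refl33 e')
  by_cases sp : e.u = e'.u ∧ e.u ∉ e.H ∧ e.u ∉ e'.H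
  · rcases hE.meet e he e' he' D hD with m | m | ⟨x, hx, m⟩
    · exact Or.inl m
    · exact absurd hl m.2.2.2
    · refine Or.inr ⟨x, hx, ?_⟩
      have := hm x
      have := hm' x
      grind
  · refine of_sub hE he (x := min e.u e'.u) ?_
    rcases hE.meet e he e' he' _ (sub_card (x := min e.u e'.u) hl hD) with m | m | ⟨x, hx, m⟩
    · exact Or.inl m
    · exact absurd ⟨m.1, m.2.1, m.2.2.1⟩ sp
    · refine Or.inr ⟨x, hx, ?_⟩
      have h1 : x ≠ min e.u e'.u := fun h => hx.2.2 (h ▸ mem_insert_self _ _)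
      have := hm x
      have := hm' x
      grind

theorem dom_M (hl : l + 3 < n) (hE : FamE n l t E) {e : EOb} (he : e ∈ E) (h1 : Lower E e)
    (h2 : Upper E e) : Dom e (insert e.u e.H) (obM n l e) := by
  have h := (flp_spec (hE.val e he).tri (inner_mem hl hE he h1 h2).1).2.2.1
  refine ⟨subset_insert _ _, fun p hp h0 => h p hp (fun hh => h0 (by rw [hh])),
    fun x hx hK => ⟨h _ hx (fun hh => hK ?_), fun hh => hK (mem_insert_of_mem hh)⟩⟩
  rw [(Prod.mk.inj hh).2]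
  exact mem_insert_self _ _

theorem lab_kind (hl : l + 3 < n) (hE : FamE n l t E) {e : EOb} (he : e ∈ E) :
    (e.u ∈ e.H ∧ Dom e (e.H.erase e.u) (lab n l t E e)) ∨
    (¬ Lower E e ∧ ¬ Upper E e ∧ ¬ TakesD E e ∧ lab n l t E e = obR l e) ∨
    ∃ K μ, TF E e K μ ∧ Dom e K (lab n l t E e) ∧ (l ∈ (lab n l t E e).Z ∨ μ = 0 ∨
      (¬ Bad l t E e ∧ lab n l t E e = obU e)) := by
  rcases lab_cases n l t E e with h | h | h | h | h
  · exact Or.inl ⟨h.1.1.2.2, h.2 ▸ dom_D e⟩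
  · by_cases h2 : Upper E e
    · exact Or.inr (Or.inr ⟨_, _, tf_up he h2, h.2.2 ▸ dom_R e, Or.inr (Or.inl rfl)⟩)
    · exact Or.inr (Or.inl ⟨h.2.1, h2, h.1, h.2.2⟩)
  · exact Or.inr (Or.inr ⟨_, _, tf_low he h.1, h.2.2 ▸ dom_B e, Or.inr (Or.inl rfl)⟩)
  · refine Or.inr (Or.inr ⟨_, _, tf_in h.1 h.2.1, h.2.2.2 ▸ dom_M hl hE he h.1 h.2.1, Or.inl ?_⟩)
    rw [h.2.2.2]
    exact mem_insert_self _ _
  · exact Or.inr (Or.inr ⟨_, _, tf_in h.1 h.2.1, h.2.2.2 ▸ dom_U e,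
      Or.inr (Or.inr ⟨h.2.2.1, h.2.2.2⟩)⟩)

theorem meet_FS (hE : FamE n l t E) (hD : D.card < t) {e e' : EOb} (he : e ∈ E) (he' : e' ∈ E)
    {K : Finset ℕ} {μ : ℕ} (f : TF E e K μ) (d : Dom e K (lab n l t E e))
    (c : l ∈ (lab n l t E e).Z ∨ μ = 0 ∨ (¬ Bad l t E e ∧ lab n l t E e = obU e))
    (h1 : ¬ Lower E e') (h2 : ¬ Upper E e') (h4 : ¬ TakesD E e') :
    MeetD D (lab n l t E e) (obR l e') := by
  by_cases h3 : e'.u ∈ e'.H
  · exact meet_of_dom d (dom_R e') (pair_FS2 hE hD he' f h1 h2 h3 h4)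
  obtain ⟨a, ha, b, hb, ka, kb, hab, hK⟩ := f
  rcases c with c | c | c
  · by_cases hl : Sum.inl l ∈ D
    · refine meet_of_dom d (dom_R e') (of_sub hE he (x := μ) ?_)
      rcases pair_Fc hE (sub_card (x := μ) hl hD) he' ha hb ka kb hab hK with m | ⟨-, m | m⟩
      · exact m
      · exact absurd (mem_insert_self _ _) m.2.2.2.2.2.2
      · exact absurd m.1 h3
    · exact Or.inl ⟨l, c, mem_insert_self _ _, hl⟩
  · refine meet_of_dom d (dom_R e') ?_
    rcases pair_Fc hE hD he' ha hb ka kb hab hK with m | ⟨-, m | m⟩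
    · exact m
    · omega
    · exact absurd m.1 h3
  · rw [c.2]
    by_contra hc
    exact c.1 ⟨e', he', h1, h2, h3, fun h => hc (h D hD)⟩

theorem lab_meet (hl : l + 3 < n) (hE : FamE n l t E) {e e' : EOb} (he : e ∈ E) (he' : e' ∈ E) :
    MeetT t (lab n l t E e) (lab n l t E e') := by
  intro D hD
  rcases lab_kind hl hE he with h | h | ⟨K, μ, f, d, c⟩
  · rcases lab_kind hl hE he' with h' | h' | ⟨K', μ', f', d', c'⟩
    · exact meet_of_dom h.2 h'.2 (pair_DD hE hD he he' h'.1)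
    · refine meetD_symm (meet_of_dom ?_ h.2 (pair_SD hE hD he' he h'.1 h'.2.1 h'.2.2.1 h.1))
      rw [h'.2.2.2]
      exact dom_R e'
    · exact meetD_symm (meet_of_dom d' h.2 (pair_FD hE hD he f' h.1))
  · rcases lab_kind hl hE he' with h' | h' | ⟨K', μ', f', d', c'⟩
    · refine meet_of_dom ?_ h'.2 (pair_SD hE hD he he' h.1 h.2.1 h.2.2.1 h'.1)
      rw [h.2.2.2]
      exact dom_R e
    · rw [h.2.2.2, h'.2.2.2]
      by_cases hl : Sum.inl l ∈ D
      · exact meet_of_dom (dom_R e) (dom_R e') (pair_RR hE hD hl he he')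
      · exact Or.inl ⟨l, mem_insert_self _ _, mem_insert_self _ _, hl⟩
    · rw [h.2.2.2]
      exact meetD_symm (meet_FS hE hD he' he f' d' c' h.1 h.2.1 h.2.2.1)
  · rcases lab_kind hl hE he' with h' | h' | ⟨K', μ', f', d', c'⟩
    · exact meet_of_dom d h'.2 (pair_FD hE hD he' f h'.1)
    · rw [h'.2.2.2]
      exact meet_FS hE hD he he' f d c h'.1 h'.2.1 h'.2.2.1
    · exact meet_of_dom d d' (pair_FF hE hD f f')

end Pool.Agent.Lib.MP_04fdae_co.T
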