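import Pool.Agent.Lib.MP_04fdae_co.T.Defs

/-! The weights. -/

namespace Pool.Agent.Lib.MP_04fdae_co.T

open Finset X

lemma num_succ (a b : ℕ) : II a (b + 1) = II a b + II (a + 1) b := by
  rw [II]

lemma num_sum (b : ℕ) : ∀ a : ℕ,
    II a b = ∑ j ∈ range (b + 1), b.choose j * (MzF (a + (b - j)) 0).card := by
  induction b with
  | zero => intro a; simp [II]
  | succ b ih =>
    intro a
    have h := Finset.sum_choose_succ_mul (R := ℕ) (fun _ k => (MzF (a + k) 0).card) b
    simp only [Nat.cast_id] at h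
    rw [num_succ, ih a, ih (a + 1), h, add_comm]
    congr 1
    refine sum_congr rfl fun j hj => ?_
    have := mem_range.1 hj
    rw [show a + 1 + (b - j) = a + (b + 1 - j) by omega]

theorem II_zero (b : ℕ) : II 0 b = catalan (b + 1) := by
  rw [num_sum, ← mz_catalan]
  exact sum_congr rfl fun j _ => by rw [zero_add]

lemma num_cat (n : ℕ) : (n + 2) * catalan (n + 1) = (4 * n + 2) * catalan n := by
  have h1 := Nat.succ_mul_centralBinom_succ n
  have h2 := succ_mul_catalan_eq_centralBinom n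
  have h3 := succ_mul_catalan_eq_centralBinom (n + 1)
  rw [← h2, ← h3] at h1
  refine Nat.eq_of_mul_eq_mul_left (Nat.succ_pos n) ?_
  calc (n + 1) * ((n + 2) * catalan (n + 1)) = 2 * (2 * n + 1) * ((n + 1) * catalan n) := h1
    _ = (n + 1) * ((4 * n + 2) * catalan n) := by ring

theorem II_rec (a b : ℕ) :
    (a + b + 3) * II (a + 1) b = (2 * a + 3 * b + 3) * II a b + 3 * a * II (a - 1) b := by
  induction a generalizing b with
  | zero =>
    have h1 := num_succ 0 b
    have h2 := num_cat (b + 1)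
    rw [← II_zero, ← II_zero, h1] at h2
    simp only [zero_add, mul_zero, zero_mul, add_zero] at h2 ⊢
    nlinarith [h2]
  | succ a ih =>
    have h1 := ih b
    have h2 := ih (b + 1)
    rw [num_succ, num_succ, num_succ] at h2
    rw [Nat.add_sub_cancel]
    cases a with
    | zero =>
      simp only [zero_add, mul_zero, zero_mul, add_zero] at h1 h2 ⊢
      nlinarith [h1, h2]
    | succ a =>
      rw [Nat.add_sub_cancel] at h1 h2
      nlinarith [h1, h2]

theorem II_pos (a b : ℕ) : 0 < II a b := by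
  induction b generalizing a with
  | zero =>
    rw [II]
    exact card_pos.2 ⟨_, mz_rep a⟩
  | succ b ih =>
    rw [num_succ]
    exact Nat.add_pos_left (ih a) _

lemma num_both (b a : ℕ) : II (a + 1) b < 3 * II a b ∧
    (3 * a + 3 * b + 3) * II a b ≤ (a + b + 3) * II (a + 1) b := by
  induction a with
  | zero =>
    have h := II_rec 0 b
    have hp := II_pos 0 b
    simp only [zero_add, mul_zero, zero_mul, add_zero] at h ⊢
    refine ⟨lt_of_mul_lt_mul_left (a := b + 3) ?_ (Nat.zero_le _), h.ge⟩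
    rw [h]
    nlinarith
  | succ a ih =>
    obtain ⟨h1, h2⟩ := ih
    have h := II_rec (a + 1) b
    have hp := II_pos (a + 1) b
    rw [Nat.add_sub_cancel] at h
    have h3 : 3 * (a + 1) * II a b < (a + 7) * II (a + 1) b := by
      refine lt_of_mul_lt_mul_left (a := a + b + 1) ?_ (Nat.zero_le _)
      have h4 := Nat.mul_le_mul_left (a + 1) h2
      have h5 : (a + 1) * (a + b + 3) < (a + b + 1) * (a + 7) := by nlinarith
      have h6 := Nat.mul_lt_mul_of_pos_right h5 hp
      calc (a + b + 1) * (3 * (a + 1) * II a b)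
          = (a + 1) * ((3 * a + 3 * b + 3) * II a b) := by ring
        _ ≤ (a + 1) * ((a + b + 3) * II (a + 1) b) := h4
        _ = (a + 1) * (a + b + 3) * II (a + 1) b := by ring
        _ < (a + b + 1) * (a + 7) * II (a + 1) b := h6
        _ = (a + b + 1) * ((a + 7) * II (a + 1) b) := by ring
    refine ⟨lt_of_mul_lt_mul_left (a := a + 1 + b + 3) ?_ (Nat.zero_le _), ?_⟩
    · rw [h]
      calc (2 * (a + 1) + 3 * b + 3) * II (a + 1) b + 3 * (a + 1) * II a b
          < (2 * (a + 1) + 3 * b + 3) * II (a + 1) b + (a + 7) * II (a + 1) b :=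
            Nat.add_lt_add_left h3 _
        _ = (a + 1 + b + 3) * (3 * II (a + 1) b) := by ring
    · rw [h]
      have h4 := Nat.mul_le_mul_left (a + 1) h1.le
      calc (3 * (a + 1) + 3 * b + 3) * II (a + 1) b
          = (2 * (a + 1) + 3 * b + 3) * II (a + 1) b + (a + 1) * II (a + 1) b := by ring
        _ ≤ (2 * (a + 1) + 3 * b + 3) * II (a + 1) b + (a + 1) * (3 * II a b) :=
            Nat.add_le_add_left h4 _
        _ = (2 * (a + 1) + 3 * b + 3) * II (a + 1) b + 3 * (a + 1) * II a b := by ring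

theorem II_lt (a b : ℕ) : II (a + 1) b < 3 * II a b := by
  exact (num_both b a).1

theorem II_gt {a : ℕ} (ha : 1 ≤ a) (b : ℕ) :
    (3 * a + 3 * b + 3) * II a b < (a + b + 3) * II (a + 1) b := by
  obtain ⟨c, rfl⟩ : ∃ c, a = c + 1 := ⟨a - 1, by omega⟩
  have h := II_rec (c + 1) b
  rw [Nat.add_sub_cancel] at h
  rw [h]
  have h4 := Nat.mul_lt_mul_of_pos_left (II_lt c b) (Nat.succ_pos c)
  calc (3 * (c + 1) + 3 * b + 3) * II (c + 1) b
      = (2 * (c + 1) + 3 * b + 3) * II (c + 1) b + (c + 1) * II (c + 1) b := by ring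
    _ < (2 * (c + 1) + 3 * b + 3) * II (c + 1) b + (c + 1) * (3 * II c b) :=
        Nat.add_lt_add_left h4 _
    _ = (2 * (c + 1) + 3 * b + 3) * II (c + 1) b + 3 * (c + 1) * II c b := by ring

lemma num_mono (a b : ℕ) : II a b ≤ II (a + 1) b := by
  refine Nat.le_of_mul_le_mul_left (c := a + b + 3) ?_ (by omega)
  exact le_trans (Nat.mul_le_mul_right _ (by omega)) (num_both b a).2

lemma num_smono {a : ℕ} (ha : 1 ≤ a) (b : ℕ) : II a b < II (a + 1) b := by
  refine lt_of_mul_lt_mul_left (a := a + b + 3) ?_ (Nat.zero_le _)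
  exact lt_of_le_of_lt (Nat.mul_le_mul_right _ (by omega)) (II_gt ha b)

theorem om_succ {d m c : ℕ} (hm : m + 1 ≤ d) (hc : c ≤ m) :
    om d m c = om d (m + 1) c + om d (m + 1) (c + 1) := by
  unfold om
  rw [show d - m = (d - (m + 1)) + 1 by omega, num_succ, show m + 1 - c = m - c + 1 by omega,
    show m + 1 - (c + 1) = m - c by omega, add_comm]

theorem om_h1 {d m a b : ℕ} (ha : 1 ≤ a) (hab : a < b) (hb : b ≤ m) :
    om d m a * om d m b < om d m (a - 1) * om d m (b - 1) := by
  unfold om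
  rw [show m - (a - 1) = m - a + 1 by omega, show m - (b - 1) = m - b + 1 by omega]
  exact mul_lt_mul (num_smono (by omega) _) (num_mono _ _) (II_pos _ _) (Nat.zero_le _)

theorem om_h2 {d t s : ℕ} (ht : 1 ≤ t) (hd : 4 * t ≤ d + 3)
    (hd' : t = 2 * s → 9 * t ≤ 2 * (d + 3)) (hs : t ≤ 2 * s)
    (hm : t + 2 * s ≤ d) :
    (t + s - 1) * om d (t + 2 * s) (t + s) < s * om d (t + 2 * s) (t + s - 1) := by
  unfold om
  rw [show t + 2 * s - (t + s) = s by omega, show t + 2 * s - (t + s - 1) = s + 1 by omega]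
  obtain ⟨b, hb⟩ : ∃ b, b = d - (t + 2 * s) := ⟨_, rfl⟩
  rw [← hb]
  have hs1 : 1 ≤ s := by omega
  obtain ⟨e, he⟩ : ∃ e, e + t = 2 * s + 1 := ⟨2 * s + 1 - t, by omega⟩
  have h1 : 6 * s ≤ e * (s + b + 3) := by
    by_cases h6 : 6 ≤ e
    · exact Nat.mul_le_mul h6 (by omega)
    · have : e = 1 ∨ e = 2 ∨ e = 3 ∨ e = 4 ∨ e = 5 := by omega
      rcases this with h | h | h | h | h <;> subst h <;> omega
  obtain ⟨u, hu⟩ : ∃ u, u = t + s - 1 := ⟨_, rfl⟩
  rw [← hu]
  have h2 : u * (s + b + 3) ≤ s * (3 * s + 3 * b + 3) := by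
    have h3 : u + e = 3 * s := by omega
    have h4 : u * (s + b + 3) + e * (s + b + 3) = s * (3 * s + 3 * b + 3) + 6 * s := by
      rw [← add_mul, h3]; ring
    omega
  refine lt_of_mul_lt_mul_left (a := s + b + 3) ?_ (Nat.zero_le _)
  have h5 := Nat.mul_lt_mul_of_pos_left (II_gt hs1 b) (show 0 < s by omega)
  calc (s + b + 3) * (u * II s b) = u * (s + b + 3) * II s b := by ring
    _ ≤ s * (3 * s + 3 * b + 3) * II s b := Nat.mul_le_mul_right _ h2
    _ = s * ((3 * s + 3 * b + 3) * II s b) := by ring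
    _ < s * ((s + b + 3) * II (s + 1) b) := h5
    _ = (s + b + 3) * (s * II (s + 1) b) := by ring

theorem om_h3 {d m c : ℕ} (hc : c + 1 ≤ m) : om d m c < 3 * om d m (c + 1) := by
  unfold om
  rw [show m - c = m - (c + 1) + 1 by omega]
  exact II_lt _ _

end Pool.Agent.Lib.MP_04fdae_co.T
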