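import Pool.Agent.Lib.MP_04fdae_co.T.Defs

/-! Optimal shifted families. -/

namespace Pool.Agent.Lib.MP_04fdae_co.T

open Finset X

variable {m t : ℕ} {ω ω' : ℕ → ℕ} {A : Finset (Finset ℕ)}

/-- the shift `j → i` relative to the family `A` -/
def opt_sh (A : Finset (Finset ℕ)) (i j : ℕ) (S : Finset ℕ) : Finset ℕ :=
  if j ∈ S ∧ i ∉ S ∧ insert i (S.erase j) ∉ A then insert i (S.erase j) else S

theorem opt_sw_card {S : Finset ℕ} {i j : ℕ} (hj : j ∈ S) (hi : i ∉ S) :
    (insert i (S.erase j)).card = S.card := by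
  rw [card_insert_of_notMem (fun h => hi (mem_of_mem_erase h)), card_erase_add_one hj]

theorem opt_sw_sum {S : Finset ℕ} {i j : ℕ} (hj : j ∈ S) (hi : i ∉ S) :
    ∑ x ∈ insert i (S.erase j), x + j = ∑ x ∈ S, x + i := by
  rw [sum_insert (fun h => hi (mem_of_mem_erase h)), ← add_sum_erase S (fun x => x) hj]
  ring

theorem opt_sw_inj {S T : Finset ℕ} {i j : ℕ} (hj : j ∈ S) (hi : i ∉ S) (hj' : j ∈ T)
    (hi' : i ∉ T) (e : insert i (S.erase j) = insert i (T.erase j)) : S = T := by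
  ext x
  by_cases h1 : x = j
  · subst h1
    exact ⟨fun _ => hj', fun _ => hj⟩
  by_cases h2 : x = i
  · subst h2
    exact ⟨fun h => absurd h hi, fun h => absurd h hi'⟩
  have := Finset.ext_iff.1 e x
  simpa [h1, h2] using this

theorem opt_sh_card (i j : ℕ) (S : Finset ℕ) : (opt_sh A i j S).card = S.card := by
  unfold opt_sh
  split_ifs with h
  · exact opt_sw_card h.1 h.2.1
  · rfl

theorem opt_sh_inj (i j : ℕ) : Set.InjOn (opt_sh A i j) A := by
  intro S hS T hT e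
  unfold opt_sh at e
  split_ifs at e with h1 h2 h2
  · exact opt_sw_inj h1.1 h1.2.1 h2.1 h2.2.1 e
  · exact absurd (e ▸ hT) h1.2.2
  · exact absurd (e ▸ hS) h2.2.2
  · exact e

theorem opt_mixed (hA : TI t A) {i j : ℕ} {S T : Finset ℕ} (hS : S ∈ A) (hT : T ∈ A)
    (hj : j ∈ S) (hi : i ∉ S) (h2 : ¬ (j ∈ T ∧ i ∉ T ∧ insert i (T.erase j) ∉ A)) :
    t ≤ (insert i (S.erase j) ∩ T).card := by
  by_cases hjT : j ∈ T
  · by_cases hiT : i ∈ T
    · have e : insert i (S.erase j) ∩ T = insert i ((S ∩ T).erase j) := by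
        rw [insert_inter_of_mem hiT, erase_inter]
      rw [e, opt_sw_card (mem_inter.2 ⟨hj, hjT⟩) (fun h => hi (mem_inter.1 h).1)]
      exact hA S hS T hT
    · have h3 : insert i (T.erase j) ∈ A := by
        by_contra h
        exact h2 ⟨hjT, hiT, h⟩
      have e : insert i (S.erase j) ∩ T = S ∩ insert i (T.erase j) := by
        rw [insert_inter_of_notMem hiT, inter_insert_of_notMem hi, erase_inter, inter_erase]
      rw [e]
      exact hA S hS _ h3
  · refine (hA S hS T hT).trans (card_le_card fun x hx => ?_)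
    obtain ⟨h3, h4⟩ := mem_inter.1 hx
    exact mem_inter.2 ⟨mem_insert_of_mem (mem_erase.2 ⟨fun e => hjT (e ▸ h4), h3⟩), h4⟩

theorem opt_sh_ti (hA : TI t A) (i j : ℕ) : TI t (A.image (opt_sh A i j)) := by
  intro S' hS' T' hT'
  obtain ⟨S, hS, rfl⟩ := mem_image.1 hS'
  obtain ⟨T, hT, rfl⟩ := mem_image.1 hT'
  unfold opt_sh
  split_ifs with h1 h2 h2
  · have e : insert i (S.erase j) ∩ insert i (T.erase j) = insert i ((S ∩ T).erase j) := by
      ext x
      simp only [mem_inter, mem_insert, mem_erase]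
      tauto
    rw [e, opt_sw_card (mem_inter.2 ⟨h1.1, h2.1⟩) (fun h => h1.2.1 (mem_inter.1 h).1)]
    exact hA S hS T hT
  · exact opt_mixed hA hS hT h1.1 h1.2.1 h2
  · rw [inter_comm]
    exact opt_mixed hA hT hS h2.1 h2.2.1 h1
  · exact hA S hS T hT

theorem opt_sh_on (hA : On m A) {i j : ℕ} (hij : i < j) : On m (A.image (opt_sh A i j)) := by
  intro S' hS'
  obtain ⟨S, hS, rfl⟩ := mem_image.1 hS'
  unfold opt_sh
  split_ifs with h1
  · have := mem_range.1 (hA S hS h1.1)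
    exact insert_subset (mem_range.2 (by omega)) ((erase_subset _ _).trans (hA S hS))
  · exact hA S hS

theorem opt_sh_wt (i j : ℕ) : wt ω (A.image (opt_sh A i j)) = wt ω A := by
  unfold wt
  rw [sum_image (opt_sh_inj i j)]
  exact sum_congr rfl fun S _ => by rw [opt_sh_card]

theorem opt_sh_pot {i j : ℕ} (hij : i < j) {S : Finset ℕ} (hS : S ∈ A) (hj : j ∈ S) (hi : i ∉ S)
    (h : insert i (S.erase j) ∉ A) :
    ∑ T ∈ A.image (opt_sh A i j), ∑ x ∈ T, x < ∑ T ∈ A, ∑ x ∈ T, x := by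
  rw [sum_image (opt_sh_inj i j)]
  refine sum_lt_sum (fun T _ => ?_) ⟨S, hS, ?_⟩
  · unfold opt_sh
    split_ifs with h1
    · have := opt_sw_sum h1.1 h1.2.1
      omega
    · exact le_rfl
  · unfold opt_sh
    rw [if_pos ⟨hj, hi, h⟩]
    have := opt_sw_sum hj hi
    omega

theorem exists_opt (m t : ℕ) (ω : ℕ → ℕ) : ∃ A, Opt m t ω A := by
  classical
  let F : Finset (Finset (Finset ℕ)) := (range m).powerset.powerset.filter (TI t)
  have hF : ∀ B, B ∈ F ↔ On m B ∧ TI t B := fun B => by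
    simp only [F, mem_filter, mem_powerset]
    exact and_congr_left fun _ =>
      ⟨fun h S hS => mem_powerset.1 (h hS), fun h S hS => mem_powerset.2 (h S hS)⟩
  have h0 : F.Nonempty := ⟨∅, (hF ∅).2 ⟨fun _ h => absurd h (notMem_empty _),
    fun _ h => absurd h (notMem_empty _)⟩⟩
  obtain ⟨A₀, hA₀, hmax⟩ := exists_max_image F (wt ω) h0
  obtain ⟨A, hA, hmin⟩ := exists_min_image (F.filter fun B => wt ω B = wt ω A₀)
    (fun B => ∑ T ∈ B, ∑ x ∈ T, x) ⟨A₀, mem_filter.2 ⟨hA₀, rfl⟩⟩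
  obtain ⟨h1, h2⟩ := mem_filter.1 hA
  obtain ⟨h3, h4⟩ := (hF A).1 h1
  refine ⟨A, h3, h4, fun B hB hB' => h2 ▸ hmax B ((hF B).2 ⟨hB, hB'⟩), ?_⟩
  intro S hS i j hij hj hi
  by_contra h
  have h5 := hmin (A.image (opt_sh A i j)) (mem_filter.2
    ⟨(hF _).2 ⟨opt_sh_on h3 hij, opt_sh_ti h4 i j⟩, (opt_sh_wt i j).trans h2⟩)
  exact absurd (opt_sh_pot hij hS hj hi h) (not_lt.2 h5)

theorem Opt.up (h : Opt m t ω A) (hω : ∀ c, c ≤ m → 0 < ω c) {S : Finset ℕ} (hS : S ∈ A) {j : ℕ}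
    (hj : j < m) : insert j S ∈ A := by
  by_contra hn
  have hsub : insert j S ⊆ range m := insert_subset (mem_range.2 hj) (h.on S hS)
  have hdown : ∀ T ∈ insert (insert j S) A, ∃ T' ∈ A, T' ⊆ T := by
    intro T hT
    rcases mem_insert.1 hT with rfl | hT
    · exact ⟨S, hS, subset_insert _ _⟩
    · exact ⟨T, hT, subset_rfl⟩
  have h1 := h.mx (insert (insert j S) A) (fun T hT => by
    rcases mem_insert.1 hT with rfl | hT
    · exact hsub
    · exact h.on T hT) (fun T hT U hU => by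
    obtain ⟨T', a1, a2⟩ := hdown T hT
    obtain ⟨U', b1, b2⟩ := hdown U hU
    exact (h.ti T' a1 U' b1).trans (card_le_card (inter_subset_inter a2 b2)))
  unfold wt at h1
  rw [sum_insert hn] at h1
  have h2 := hω (insert j S).card (by simpa using card_le_card hsub)
  omega

theorem wt_drop (hA : On (m + 1) A) (hcl : ∀ S ∈ A, S.erase m ∈ A)
    (hω : ∀ c, c ≤ m → ω' c = ω c + ω (c + 1)) :
    wt ω A ≤ wt ω' (A.filter fun S => m ∉ S) := by
  unfold wt
  have e : ∑ S ∈ A.filter (fun S => m ∉ S), ω' S.card =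
      ∑ S ∈ A.filter (fun S => m ∉ S), ω S.card +
        ∑ S ∈ A.filter (fun S => m ∉ S), ω (S.card + 1) := by
    rw [← sum_add_distrib]
    refine sum_congr rfl fun S hS => hω _ ?_
    obtain ⟨h1, h2⟩ := mem_filter.1 hS
    have : S ⊆ range m := fun x hx => by
      have h3 := mem_range.1 (hA S h1 hx)
      have h4 : x ≠ m := fun e => h2 (e ▸ hx)
      exact mem_range.2 (by omega)
    simpa using card_le_card this
  rw [e, ← sum_filter_add_sum_filter_not A (fun S => m ∉ S)]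
  refine Nat.add_le_add_left ?_ _
  have hinj : Set.InjOn (fun S : Finset ℕ => S.erase m) (A.filter fun S => ¬ m ∉ S) := by
    intro S hS T hT e
    have h1 : m ∈ S := not_not.1 (mem_filter.1 hS).2
    have h2 : m ∈ T := not_not.1 (mem_filter.1 hT).2
    rw [← insert_erase h1, ← insert_erase h2]
    exact congrArg (insert m) e
  calc ∑ S ∈ A.filter (fun S => ¬ m ∉ S), ω S.card
      = ∑ S ∈ A.filter (fun S => ¬ m ∉ S), ω ((S.erase m).card + 1) :=
        sum_congr rfl fun S hS => by rw [card_erase_add_one (not_not.1 (mem_filter.1 hS).2)]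
    _ = ∑ T ∈ (A.filter fun S => ¬ m ∉ S).image (fun S => S.erase m), ω (T.card + 1) :=
        (sum_image (f := fun T : Finset ℕ => ω (T.card + 1)) hinj).symm
    _ ≤ _ := by
        refine sum_le_sum_of_subset fun T hT => ?_
        obtain ⟨S, hS, rfl⟩ := mem_image.1 hT
        exact mem_filter.2 ⟨hcl S (mem_filter.1 hS).1, notMem_erase _ _⟩

end Pool.Agent.Lib.MP_04fdae_co.T
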