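import Pool.Agent.Lib.MP_04fdae_co.T.Inj

/-! Reduction of families of triangulations to weighted families of sets. -/

namespace Pool.Agent.Lib.MP_04fdae_co.T

open Finset X

variable {n l t : ℕ}

/-- The bound carried through the levels. -/
def Cov (d t c : ℕ) : Prop :=
  ∃ A, On d A ∧ TI t A ∧ c ≤ ∑ Z ∈ A, (MzF (d - Z.card) 0).card

theorem fam_top (hn : 4 ≤ n) {G : Finset Ob} (hG : FamT n (n - 3) t G) :
    Cov (n - 3) t G.card := by
  classical
  have hS : ∀ o ∈ G, o.S = ∅ := fun o ho => (tri_top (by omega)).1 (hG.val o ho).tri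
  have hH : ∀ o ∈ G, o.H = ∅ := fun o ho => eq_empty_of_forall_notMem fun x hx => by
    have := (hG.val o ho).mark x hx
    rw [hS o ho] at this
    exact notMem_empty _ this
  refine ⟨G.image Ob.Z, fun Z h => ?_, fun Z h Z' h' => ?_, ?_⟩
  · obtain ⟨o, ho, rfl⟩ := mem_image.1 h
    exact (hG.val o ho).red
  · obtain ⟨o, ho, rfl⟩ := mem_image.1 h
    obtain ⟨o', ho', rfl⟩ := mem_image.1 h'
    by_contra hc
    rcases hG.meet o ho o' ho' ((o.Z ∩ o'.Z).image Sum.inl)
      (card_image_le.trans_lt (not_le.1 hc)) with ⟨i, h1, h2, h3⟩ | ⟨p, hp, -⟩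
    · exact h3 (mem_image_of_mem _ (mem_inter.2 ⟨h1, h2⟩))
    · rw [hS o ho] at hp
      exact notMem_empty _ hp
  · rw [card_eq_sum_card_image Ob.Z G]
    refine sum_le_sum fun Z _ => card_le_card_of_injOn Ob.w (fun o ho => ?_) fun o ho o' ho' e => ?_
    · obtain ⟨h1, h2⟩ := mem_filter.1 ho
      have := (hG.val o h1).word
      rwa [hH o h1, card_empty, h2] at this
    · obtain ⟨h1, h2⟩ := mem_filter.1 ho
      obtain ⟨h3, h4⟩ := mem_filter.1 ho'
      exact Ob.ext (h2.trans h4.symm) e ((hS o h1).trans (hS o' h3).symm)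
        ((hH o h1).trans (hH o' h3).symm)

open Classical in
theorem lab_fam (hl : l + 3 < n) {E : Finset EOb} (hE : FamE n l t E) :
    FamT n (l + 1) t (E.image (lab n l t E)) ∧ (E.image (lab n l t E)).card = E.card := by
  refine ⟨⟨fun o ho => ?_, fun o ho o' ho' => ?_⟩,
    card_image_of_injOn fun e he e' he' h => lab_inj hl hE he he' h⟩
  · obtain ⟨e, he, rfl⟩ := mem_image.1 ho
    exact lab_val hl hE he
  · obtain ⟨e, he, rfl⟩ := mem_image.1 ho
    obtain ⟨e', he', rfl⟩ := mem_image.1 ho'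
    exact lab_meet hl hE he he'

theorem fam_bound (hn : 4 ≤ n) (hl : l + 3 ≤ n) {G : Finset Ob} (hG : FamT n l t G) :
    Cov (n - 3) t G.card := by
  obtain ⟨k, hk⟩ : ∃ k, n = l + 3 + k := ⟨n - (l + 3), by omega⟩
  induction k generalizing l G with
  | zero =>
    obtain rfl : l = n - 3 := by omega
    exact fam_top hn hG
  | succ k ih =>
    obtain ⟨E, hE, hc⟩ := exists_E (by omega) hG
    obtain ⟨h1, h2⟩ := lab_fam (by omega) hE
    rw [← hc, ← h2]
    exact ih (by omega) h1 (by omega)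

theorem red_nat (hn : 4 ≤ n) (F : Finset (Finset (ℕ × ℕ))) (h1 : ∀ S ∈ F, Tri n 0 S)
    (h2 : ∀ S ∈ F, ∀ S' ∈ F, t ≤ (S ∩ S').card) : Cov (n - 3) t F.card := by
  classical
  let f : Finset (ℕ × ℕ) → Ob := fun S => ⟨∅, [], S, ∅⟩
  have hG : FamT n 0 t (F.image f) := by
    refine ⟨fun o ho => ?_, fun o ho o' ho' D hD => ?_⟩
    · obtain ⟨S, hS, rfl⟩ := mem_image.1 ho
      exact ⟨empty_subset _, mz_nil.2 rfl, h1 S hS, fun x hx => absurd hx (notMem_empty x)⟩
    · obtain ⟨S, hS, rfl⟩ := mem_image.1 ho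
      obtain ⟨S', hS', rfl⟩ := mem_image.1 ho'
      have h3 : D.card < ((S ∩ S').image (Sum.inr : ℕ × ℕ → Tok)).card := by
        rw [card_image_of_injective _ Sum.inr_injective]
        exact hD.trans_le (h2 S hS S' hS')
      obtain ⟨τ, h4, h5⟩ := exists_mem_notMem_of_card_lt_card h3
      obtain ⟨p, hp, rfl⟩ := mem_image.1 h4
      exact Or.inr ⟨p, (mem_inter.1 hp).1, (mem_inter.1 hp).2, h5,
        fun h => h.2.elim (notMem_empty _) (notMem_empty _)⟩
  have hc : (F.image f).card = F.card :=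
    card_image_of_injective _ fun S S' h => congrArg Ob.S h
  exact hc ▸ fam_bound hn (by omega) hG

end Pool.Agent.Lib.MP_04fdae_co.T
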