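import Pool.Agent.Lib.MP_04fdae_co.Defs
import Pool.Agent.Lib.MP_04fdae_co.T.AK
import Pool.Agent.Lib.MP_04fdae_co.T.Red
import Pool.Agent.Lib.MP_04fdae_co.T.Ears

/-! The theorem in the model on natural numbers, and the transfer to `Fin n`. -/

namespace Pool.Agent.Lib.MP_04fdae_co.T

open Finset X

open Classical in
/-- The triangulations with at least `k` of the first `m` ears. -/
noncomputable def frk (n m k : ℕ) : Finset (Finset (ℕ × ℕ)) :=
  (allT n).filter fun S => k ≤ ((range m).filter fun i => ear i ∈ S).card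

theorem frk_max {n t : ℕ} (ht : 1 ≤ t) (hn : 4 * t ≤ n) (hn' : Even t → 9 * t ≤ 2 * n)
    (F : Finset (Finset (ℕ × ℕ)))
    (h1 : ∀ S ∈ F, Tri n 0 S) (h2 : ∀ S ∈ F, ∀ S' ∈ F, S ≠ S' → t ≤ (S ∩ S').card) :
    F.card ≤ (frk n (t + 2 * ((t - 1) / 2)) (t + (t - 1) / 2)).card := by
  refine le_trans ?_ (card_ears (by omega) (by omega) _)
  by_cases hc : F.card ≤ 1
  · refine hc.trans (le_trans (II_pos _ _) (single_le_sum
      (f := fun S : Finset ℕ => om (n - 3) (t + 2 * ((t - 1) / 2)) S.card)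
      (fun _ _ => Nat.zero_le _) (a := range (t + 2 * ((t - 1) / 2))) ?_))
    exact mem_filter.2 ⟨mem_powerset.2 Subset.rfl, by rw [card_range]; omega⟩
  · obtain ⟨A, a1, a2, a3⟩ := red_nat (t := t) (by omega) F h1 fun S hS S' hS' => by
      by_cases h : S = S'
      · obtain ⟨U, hU, hne⟩ := exists_mem_ne (not_le.1 hc) S
        rw [← h, inter_self]
        exact (h2 S hS U hU hne.symm).trans (card_le_card inter_subset_left)
      · exact h2 S hS S' hS' h
    exact a3.trans (wak ht (by omega) (fun h => by have := hn' h; omega) a1 a2)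

theorem frk_ti {n t r : ℕ} {S S' : Finset (ℕ × ℕ)} (h : S ∈ frk n (t + 2 * r) (t + r))
    (h' : S' ∈ frk n (t + 2 * r) (t + r)) : t ≤ (S ∩ S').card := by
  classical
  have a := (Ears_mem.1 h).2
  have b := (Ears_mem.1 h').2
  have c := card_union_add_card_inter ((range (t + 2 * r)).filter fun i => ear i ∈ S)
    ((range (t + 2 * r)).filter fun i => ear i ∈ S')
  have d := card_le_card (union_subset (filter_subset (fun i => ear i ∈ S) (range (t + 2 * r)))
    (filter_subset (fun i => ear i ∈ S') (range (t + 2 * r))))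
  rw [card_range] at d
  have e : (((range (t + 2 * r)).filter fun i => ear i ∈ S) ∩
      ((range (t + 2 * r)).filter fun i => ear i ∈ S')).card ≤ (S ∩ S').card :=
    card_le_card_of_injOn ear (fun i hi => by
      have := mem_inter.1 (mem_coe.1 hi)
      exact mem_coe.2 (mem_inter.2 ⟨(mem_filter.1 this.1).2, (mem_filter.1 this.2).2⟩))
      fun i _ j _ hij => by
        have := (Prod.mk.inj hij).1
        omega
  omega

/-- For `3 ≤ t` the extremal family is larger than the family through `t` disjoint ears. -/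
theorem frk_gt {n t : ℕ} (ht : 3 ≤ t) (hn : 4 * t ≤ n) (hn' : Even t → 9 * t ≤ 2 * n) :
    catalan (n - 2 - t) < (frk n (t + 2 * ((t - 1) / 2)) (t + (t - 1) / 2)).card := by
  refine lt_of_lt_of_le ?_ (frk_max (by omega) hn hn' (frk n (t + 2 * 1) (t + 1))
    (fun S hS => mem_allT.1 (Ears_mem.1 hS).1) fun S hS S' hS' _ => frk_ti hS hS')
  refine lt_of_lt_of_le ?_ (card_ears (by omega) (by omega) _)
  have h1 : insert (range (t + 2)) (powersetCard (t + 1) (range (t + 2))) ⊆
      upper (t + 2 * 1) (t + 1) := fun S hS => by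
    rcases mem_insert.1 hS with rfl | hS
    · exact mem_filter.2 ⟨mem_powerset.2 Subset.rfl, by rw [card_range]; omega⟩
    · rw [mem_powersetCard] at hS
      exact mem_filter.2 ⟨mem_powerset.2 hS.1, hS.2.ge⟩
  refine lt_of_lt_of_le ?_ (sum_le_sum_of_subset h1)
  rw [sum_insert fun h => by
      have := (mem_powersetCard.1 h).2
      rw [card_range] at this
      omega,
    sum_congr rfl fun S hS => congrArg (om (n - 3) (t + 2 * 1)) (mem_powersetCard.1 hS).2,
    sum_const, card_powersetCard, card_range, Nat.choose_succ_self_right, smul_eq_mul]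
  obtain ⟨b, hb⟩ : ∃ b, n = t + 5 + b := ⟨n - (t + 5), by omega⟩
  unfold om
  rw [show n - 2 - t = b + 1 + 1 + 1 by omega, ← II_zero, show n - 3 - (t + 2 * 1) = b by omega,
    show t + 2 * 1 - (t + 2) = 0 by omega, show t + 2 * 1 - (t + 1) = 1 by omega,
    num_succ, num_succ, num_succ]
  have h2 := II_lt 1 b
  have h3 := Nat.mul_le_mul_right (II 1 b) ht
  simp only [zero_add] at h2 h3 ⊢
  rw [add_mul, add_mul]
  omega

variable {n : ℕ}

/-- chords as pairs of natural numbers -/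
def ph (p : Fin n × Fin n) : ℕ × ℕ := (p.1.val, p.2.val)

theorem ph_inj : Function.Injective (ph (n := n)) := fun p q h => by
  simp only [ph, Prod.mk.injEq] at h
  exact Prod.ext (Fin.ext h.1) (Fin.ext h.2)

theorem ph_dg (p : Fin n × Fin n) : Dg n 0 (ph p) ↔ IsDiag p := by
  have h2 := p.2.isLt
  simp only [Dg, ph, IsDiag]
  omega

theorem ph_cr (p q : Fin n × Fin n) : Cr (ph p) (ph q) ↔ Cross p q := by
  simp only [Cr, ph, Cross, Fin.lt_def]

theorem ph_sur {c : ℕ × ℕ} (hc : Dg n 0 c) : ∃ p : Fin n × Fin n, ph p = c := by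
  unfold Dg at hc
  exact ⟨(⟨c.1, by omega⟩, ⟨c.2, by omega⟩), rfl⟩

theorem ph_mem {T : Finset (Fin n × Fin n)} {p : Fin n × Fin n} : ph p ∈ T.image ph ↔ p ∈ T :=
  ph_inj.mem_finset_image

theorem ph_tri {T : Finset (Fin n × Fin n)} : IsTriangulation T ↔ Tri n 0 (T.image ph) := by
  constructor
  · rintro ⟨h1, h2, h3⟩
    refine ⟨fun c hc => ?_, fun c hc c' hc' => ?_, fun c hc hno => ?_⟩
    · obtain ⟨p, hp, rfl⟩ := mem_image.1 hc
      exact (ph_dg p).2 (h1 p hp)
    · obtain ⟨p, hp, rfl⟩ := mem_image.1 hc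
      obtain ⟨q, hq, rfl⟩ := mem_image.1 hc'
      rw [ph_cr]
      exact h2 p hp q hq
    · obtain ⟨p, rfl⟩ := ph_sur hc
      refine ph_mem.2 (h3 p ((ph_dg p).1 hc) fun q hq => ?_)
      rw [← ph_cr]
      exact hno _ (ph_mem.2 hq)
  · intro h
    refine ⟨fun p hp => (ph_dg p).1 (h.dg _ (ph_mem.2 hp)), fun p hp q hq => ?_, fun p hp hno => ?_⟩
    · rw [← ph_cr]
      exact h.nc _ (ph_mem.2 hp) _ (ph_mem.2 hq)
    · refine ph_mem.1 (h.mx _ ((ph_dg p).2 hp) fun c hc => ?_)
      obtain ⟨q, hq, rfl⟩ := mem_image.1 hc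
      rw [ph_cr]
      exact hno q hq

theorem ph_lift {S : Finset (ℕ × ℕ)} (hS : Tri n 0 S) :
    ∃ T : Finset (Fin n × Fin n), T.image ph = S := by
  refine ⟨univ.filter fun p => ph p ∈ S, ?_⟩
  ext c
  constructor
  · intro hc
    obtain ⟨p, hp, rfl⟩ := mem_image.1 hc
    exact (mem_filter.1 hp).2
  · intro hc
    obtain ⟨p, rfl⟩ := ph_sur (hS.dg c hc)
    exact mem_image_of_mem ph (mem_filter.2 ⟨mem_univ _, hc⟩)

theorem ph_inter (T U : Finset (Fin n × Fin n)) :
    (T.image ph ∩ U.image ph).card = (T ∩ U).card := by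
  rw [← image_inter _ _ ph_inj, card_image_of_injective _ ph_inj]

theorem ph_ears (m : ℕ) (T : Finset (Fin n × Fin n)) :
    (T.filter fun p => Even p.1.val ∧ p.2.val = p.1.val + 2 ∧ p.1.val < 2 * m).card =
      ((range m).filter fun i => ear i ∈ T.image ph).card := by
  refine card_bij (fun p _ => p.1.val / 2) (fun p hp => ?_) (fun p hp q hq h => ?_) fun i hi => ?_
  · obtain ⟨h1, ⟨k, h2⟩, h3, h4⟩ := mem_filter.1 hp
    refine mem_filter.2 ⟨mem_range.2 (by omega), mem_image.2 ⟨p, h1, ?_⟩⟩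
    exact Prod.ext (by simp only [ph, ear]; omega) (by simp only [ph, ear]; omega)
  · obtain ⟨-, ⟨k, h2⟩, h3, -⟩ := mem_filter.1 hp
    obtain ⟨-, ⟨k', h2'⟩, h3', -⟩ := mem_filter.1 hq
    exact Prod.ext (Fin.ext (by omega)) (Fin.ext (by omega))
  · obtain ⟨h1, h2⟩ := mem_filter.1 hi
    obtain ⟨p, hp, h3⟩ := mem_image.1 h2
    have h4 := mem_range.1 h1
    simp only [ph, ear, Prod.mk.injEq] at h3
    exact ⟨p, mem_filter.2 ⟨hp, ⟨i, by omega⟩, by omega, by omega⟩, by omega⟩

end Pool.Agent.Lib.MP_04fdae_co.T
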